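import Mathlib

set_option autoImplicit false

namespace Pool.Agent.Lib.MP_e1f2e6_al

/-- The ambient group: `(Z^2 x Q x Q^3) ⋊ (GL2(Z) x {±1})` in coordinates. -/
@[ext] structure Amb where
  v1 : ℤ
  v2 : ℤ
  s : ℚ
  q1 : ℚ
  q2 : ℚ
  q3 : ℚ
  a : ℤ
  b : ℤ
  c : ℤ
  d : ℤ
  e : ℤ
  hD : (a * d - b * c) * (a * d - b * c) = 1
  he : e * e = 1

namespace Amb

instance : Mul Amb := ⟨fun x y =>
  { v1 := x.v1 + x.a * y.v1 + x.b * y.v2
    v2 := x.v2 + x.c * y.v1 + x.d * y.v2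
    s := x.s + (x.a * x.d - x.b * x.c) * y.s +
      2 * (x.v1 * (x.c * y.v1 + x.d * y.v2) - x.v2 * (x.a * y.v1 + x.b * y.v2))
    q1 := x.q1 + x.e * (x.a ^ 2 * y.q1 + x.a * x.b * y.q2 + x.b ^ 2 * y.q3)
    q2 := x.q2 + x.e * (2 * x.a * x.c * y.q1 + (x.a * x.d + x.b * x.c) * y.q2 +
      2 * x.b * x.d * y.q3)
    q3 := x.q3 + x.e * (x.c ^ 2 * y.q1 + x.c * x.d * y.q2 + x.d ^ 2 * y.q3)
    a := x.a * y.a + x.b * y.c
    b := x.a * y.b + x.b * y.d
    c := x.c * y.a + x.d * y.c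
    d := x.c * y.b + x.d * y.d
    e := x.e * y.e
    hD := by
      have h1 := x.hD
      have h2 := y.hD
      linear_combination (y.a * y.d - y.b * y.c) ^ 2 * h1 + h2
    he := by
      have h1 := x.he
      have h2 := y.he
      linear_combination y.e ^ 2 * h1 + h2 }⟩

instance : One Amb := ⟨⟨0, 0, 0, 0, 0, 0, 1, 0, 0, 1, 1, by norm_num, by norm_num⟩⟩

instance : Inv Amb := ⟨fun x =>
  { v1 := -((x.a * x.d - x.b * x.c) * (x.d * x.v1 - x.b * x.v2))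
    v2 := -((x.a * x.d - x.b * x.c) * (x.a * x.v2 - x.c * x.v1))
    s := -((x.a * x.d - x.b * x.c) * x.s)
    q1 := -(x.e * (x.d ^ 2 * x.q1 - x.d * x.b * x.q2 + x.b ^ 2 * x.q3))
    q2 := -(x.e * (-(2 * x.c * x.d * x.q1) + (x.a * x.d + x.b * x.c) * x.q2 -
      2 * x.a * x.b * x.q3))
    q3 := -(x.e * (x.c ^ 2 * x.q1 - x.c * x.a * x.q2 + x.a ^ 2 * x.q3))
    a := (x.a * x.d - x.b * x.c) * x.d
    b := -((x.a * x.d - x.b * x.c) * x.b)
    c := -((x.a * x.d - x.b * x.c) * x.c)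
    d := (x.a * x.d - x.b * x.c) * x.a
    e := x.e
    hD := by
      have h1 := x.hD
      linear_combination ((x.a * x.d - x.b * x.c) ^ 4 + (x.a * x.d - x.b * x.c) ^ 2 + 1) * h1
    he := x.he }⟩

variable (x y : Amb)

@[simp] lemma mul_v1 : (x * y).v1 = x.v1 + x.a * y.v1 + x.b * y.v2 := rfl
@[simp] lemma mul_v2 : (x * y).v2 = x.v2 + x.c * y.v1 + x.d * y.v2 := rfl
@[simp] lemma mul_s : (x * y).s = x.s + (x.a * x.d - x.b * x.c) * y.s +
      2 * (x.v1 * (x.c * y.v1 + x.d * y.v2) - x.v2 * (x.a * y.v1 + x.b * y.v2)) := rfl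
@[simp] lemma mul_q1 : (x * y).q1 =
    x.q1 + x.e * (x.a ^ 2 * y.q1 + x.a * x.b * y.q2 + x.b ^ 2 * y.q3) := rfl
@[simp] lemma mul_q2 : (x * y).q2 = x.q2 + x.e * (2 * x.a * x.c * y.q1 +
    (x.a * x.d + x.b * x.c) * y.q2 + 2 * x.b * x.d * y.q3) := rfl
@[simp] lemma mul_q3 : (x * y).q3 =
    x.q3 + x.e * (x.c ^ 2 * y.q1 + x.c * x.d * y.q2 + x.d ^ 2 * y.q3) := rfl
@[simp] lemma mul_a : (x * y).a = x.a * y.a + x.b * y.c := rfl
@[simp] lemma mul_b : (x * y).b = x.a * y.b + x.b * y.d := rfl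
@[simp] lemma mul_c : (x * y).c = x.c * y.a + x.d * y.c := rfl
@[simp] lemma mul_d : (x * y).d = x.c * y.b + x.d * y.d := rfl
@[simp] lemma mul_e : (x * y).e = x.e * y.e := rfl

@[simp] lemma one_v1 : (1 : Amb).v1 = 0 := rfl
@[simp] lemma one_v2 : (1 : Amb).v2 = 0 := rfl
@[simp] lemma one_s : (1 : Amb).s = 0 := rfl
@[simp] lemma one_q1 : (1 : Amb).q1 = 0 := rfl
@[simp] lemma one_q2 : (1 : Amb).q2 = 0 := rfl
@[simp] lemma one_q3 : (1 : Amb).q3 = 0 := rfl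
@[simp] lemma one_a : (1 : Amb).a = 1 := rfl
@[simp] lemma one_b : (1 : Amb).b = 0 := rfl
@[simp] lemma one_c : (1 : Amb).c = 0 := rfl
@[simp] lemma one_d : (1 : Amb).d = 1 := rfl
@[simp] lemma one_e : (1 : Amb).e = 1 := rfl

@[simp] lemma inv_v1 : x⁻¹.v1 = -((x.a * x.d - x.b * x.c) * (x.d * x.v1 - x.b * x.v2)) := rfl
@[simp] lemma inv_v2 : x⁻¹.v2 = -((x.a * x.d - x.b * x.c) * (x.a * x.v2 - x.c * x.v1)) := rfl
@[simp] lemma inv_s : x⁻¹.s = -((x.a * x.d - x.b * x.c) * x.s) := rfl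
@[simp] lemma inv_q1 : x⁻¹.q1 =
    -(x.e * (x.d ^ 2 * x.q1 - x.d * x.b * x.q2 + x.b ^ 2 * x.q3)) := rfl
@[simp] lemma inv_q2 : x⁻¹.q2 = -(x.e * (-(2 * x.c * x.d * x.q1) +
    (x.a * x.d + x.b * x.c) * x.q2 - 2 * x.a * x.b * x.q3)) := rfl
@[simp] lemma inv_q3 : x⁻¹.q3 =
    -(x.e * (x.c ^ 2 * x.q1 - x.c * x.a * x.q2 + x.a ^ 2 * x.q3)) := rfl
@[simp] lemma inv_a : x⁻¹.a = (x.a * x.d - x.b * x.c) * x.d := rfl
@[simp] lemma inv_b : x⁻¹.b = -((x.a * x.d - x.b * x.c) * x.b) := rfl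
@[simp] lemma inv_c : x⁻¹.c = -((x.a * x.d - x.b * x.c) * x.c) := rfl
@[simp] lemma inv_d : x⁻¹.d = (x.a * x.d - x.b * x.c) * x.a := rfl
@[simp] lemma inv_e : x⁻¹.e = x.e := rfl

lemma hDq : ((x.a : ℚ) * x.d - x.b * x.c) * (x.a * x.d - x.b * x.c) = 1 := by
  exact_mod_cast x.hD

lemma heq : (x.e : ℚ) * x.e = 1 := by exact_mod_cast x.he

instance : Group Amb := Group.ofLeftAxioms
  (fun x y z => by ext <;> simp <;> ring)
  (fun x => by ext <;> simp)
  (fun x => by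
    have h := x.hD
    have hq := x.hDq
    ext <;> simp only [mul_v1, mul_v2, mul_s, mul_q1, mul_q2, mul_q3, mul_a, mul_b, mul_c, mul_d,
      mul_e, inv_v1, inv_v2, inv_s, inv_q1, inv_q2, inv_q3, inv_a, inv_b, inv_c, inv_d, inv_e,
      one_v1, one_v2, one_s, one_q1, one_q2, one_q3, one_a, one_b, one_c, one_d, one_e]
    · ring
    · ring
    · push_cast
      linear_combination ((x.a : ℚ) * x.d - x.b * x.c) * x.s * hq
    · push_cast
      linear_combination x.e * (x.d ^ 2 * x.q1 - x.d * x.b * x.q2 + x.b ^ 2 * x.q3) * hq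
    · push_cast
      linear_combination x.e * (-(2 * x.c * x.d * x.q1) + (x.a * x.d + x.b * x.c) * x.q2 -
        2 * x.a * x.b * x.q3) * hq
    · push_cast
      linear_combination x.e * (x.c ^ 2 * x.q1 - x.c * x.a * x.q2 + x.a ^ 2 * x.q3) * hq
    · linear_combination h
    · ring
    · ring
    · linear_combination h
    · exact x.he)

end Amb

/-- the rational space holding the centre of the unipotent part -/
abbrev W := ℚ × ℚ × ℚ × ℚ

/-- the central coordinates -/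
def Amb.w (x : Amb) : W := (x.s, x.q1, x.q2, x.q3)

/-- the action on the central coordinates -/
def Amb.act (x : Amb) (w : W) : W :=
  ((x.a * x.d - x.b * x.c) * w.1,
    x.e * (x.a ^ 2 * w.2.1 + x.a * x.b * w.2.2.1 + x.b ^ 2 * w.2.2.2),
    x.e * (2 * x.a * x.c * w.2.1 + (x.a * x.d + x.b * x.c) * w.2.2.1 + 2 * x.b * x.d * w.2.2.2),
    x.e * (x.c ^ 2 * w.2.1 + x.c * x.d * w.2.2.1 + x.d ^ 2 * w.2.2.2))

/-- elements of the unipotent part -/
def mkU (v1 v2 : ℤ) (w : W) : Amb :=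
  ⟨v1, v2, w.1, w.2.1, w.2.2.1, w.2.2.2, 1, 0, 0, 1, 1, by norm_num, by norm_num⟩

/-- elements of the linear part -/
def mkL (a b c d e : ℤ) (hD : (a * d - b * c) * (a * d - b * c) = 1) (he : e * e = 1) : Amb :=
  ⟨0, 0, 0, 0, 0, 0, a, b, c, d, e, hD, he⟩

section simps
variable (v1 v2 : ℤ) (w : W) (a b c d e : ℤ) (hD : (a * d - b * c) * (a * d - b * c) = 1)
  (he : e * e = 1)
@[simp] lemma mkU_v1 : (mkU v1 v2 w).v1 = v1 := rfl
@[simp] lemma mkU_v2 : (mkU v1 v2 w).v2 = v2 := rfl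
@[simp] lemma mkU_s : (mkU v1 v2 w).s = w.1 := rfl
@[simp] lemma mkU_q1 : (mkU v1 v2 w).q1 = w.2.1 := rfl
@[simp] lemma mkU_q2 : (mkU v1 v2 w).q2 = w.2.2.1 := rfl
@[simp] lemma mkU_q3 : (mkU v1 v2 w).q3 = w.2.2.2 := rfl
@[simp] lemma mkU_a : (mkU v1 v2 w).a = 1 := rfl
@[simp] lemma mkU_b : (mkU v1 v2 w).b = 0 := rfl
@[simp] lemma mkU_c : (mkU v1 v2 w).c = 0 := rfl
@[simp] lemma mkU_d : (mkU v1 v2 w).d = 1 := rfl
@[simp] lemma mkU_e : (mkU v1 v2 w).e = 1 := rfl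
@[simp] lemma mkU_w : (mkU v1 v2 w).w = w := rfl
@[simp] lemma mkL_v1 : (mkL a b c d e hD he).v1 = 0 := rfl
@[simp] lemma mkL_v2 : (mkL a b c d e hD he).v2 = 0 := rfl
@[simp] lemma mkL_s : (mkL a b c d e hD he).s = 0 := rfl
@[simp] lemma mkL_q1 : (mkL a b c d e hD he).q1 = 0 := rfl
@[simp] lemma mkL_q2 : (mkL a b c d e hD he).q2 = 0 := rfl
@[simp] lemma mkL_q3 : (mkL a b c d e hD he).q3 = 0 := rfl
@[simp] lemma mkL_a : (mkL a b c d e hD he).a = a := rfl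
@[simp] lemma mkL_b : (mkL a b c d e hD he).b = b := rfl
@[simp] lemma mkL_c : (mkL a b c d e hD he).c = c := rfl
@[simp] lemma mkL_d : (mkL a b c d e hD he).d = d := rfl
@[simp] lemma mkL_e : (mkL a b c d e hD he).e = e := rfl
@[simp] lemma mkL_w : (mkL a b c d e hD he).w = 0 := rfl
end simps

lemma mul_w (x y : Amb) : (x * y).w = x.w + x.act y.w +
    (x.v1 * (x.c * y.v1 + x.d * y.v2) - x.v2 * (x.a * y.v1 + x.b * y.v2)) • ((2, 0, 0, 0) : W) := by
  simp only [Amb.w, Amb.act]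
  ext <;> simp
  ring

lemma inv_w (x : Amb) : x⁻¹.w = -(x⁻¹.act x.w) := by
  have hq := x.hDq
  simp only [Amb.w, Amb.act]
  ext <;> simp only [Amb.inv_s, Amb.inv_q1, Amb.inv_q2, Amb.inv_q3, Amb.inv_a, Amb.inv_b, Amb.inv_c,
    Amb.inv_d, Amb.inv_e, Prod.neg_mk] <;> push_cast
  · linear_combination ((x.a : ℚ) * x.d - x.b * x.c) * x.s * hq
  · linear_combination x.e * (x.d ^ 2 * x.q1 - x.d * x.b * x.q2 + x.b ^ 2 * x.q3) * hq
  · linear_combination x.e * (-(2 * x.c * x.d * x.q1) + (x.a * x.d + x.b * x.c) * x.q2 -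
        2 * x.a * x.b * x.q3) * hq
  · linear_combination x.e * (x.c ^ 2 * x.q1 - x.c * x.a * x.q2 + x.a ^ 2 * x.q3) * hq

/-- membership in the unipotent part -/
def IsU (x : Amb) : Prop := x.a = 1 ∧ x.b = 0 ∧ x.c = 0 ∧ x.d = 1 ∧ x.e = 1

lemma isU_mkU (v1 v2 : ℤ) (w : W) : IsU (mkU v1 v2 w) := ⟨rfl, rfl, rfl, rfl, rfl⟩

lemma IsU.eq {x : Amb} (h : IsU x) : x = mkU x.v1 x.v2 x.w := by
  obtain ⟨h1, h2, h3, h4, h5⟩ := h
  ext <;> simp [*, Amb.w]

lemma mkU_mul (v1 v2 u1 u2 : ℤ) (w w' : W) : mkU v1 v2 w * mkU u1 u2 w' =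
    mkU (v1 + u1) (v2 + u2) (w + w' + (v1 * u2 - v2 * u1) • ((2, 0, 0, 0) : W)) := by
  ext <;> simp
  ring

lemma mkU_inv (v1 v2 : ℤ) (w : W) : (mkU v1 v2 w)⁻¹ = mkU (-v1) (-v2) (-w) := by
  ext <;> simp

lemma mkU_zero : mkU 0 0 0 = 1 := by ext <;> simp

lemma conj_mkU (y : Amb) (v1 v2 : ℤ) (w : W) : y * mkU v1 v2 w * y⁻¹ =
    mkU (y.a * v1 + y.b * v2) (y.c * v1 + y.d * v2) (y.act w +
      (y.v1 * (y.c * v1 + y.d * v2) - y.v2 * (y.a * v1 + y.b * v2)) • ((4, 0, 0, 0) : W)) := by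
  rw [mul_inv_eq_iff_eq_mul]
  ext <;> simp [Amb.act] <;> ring

lemma IsU.mul {x y : Amb} (hx : IsU x) (hy : IsU y) : IsU (x * y) := by
  rw [hx.eq, hy.eq, mkU_mul]; exact isU_mkU _ _ _

lemma IsU.inv {x : Amb} (hx : IsU x) : IsU x⁻¹ := by
  rw [hx.eq, mkU_inv]; exact isU_mkU _ _ _

lemma IsU.conj {x : Amb} (hx : IsU x) (y : Amb) : IsU (y * x * y⁻¹) := by
  rw [hx.eq, conj_mkU]; exact isU_mkU _ _ _

/-- the linear part of an element -/
def Amb.lin (x : Amb) : Amb := mkL x.a x.b x.c x.d x.e x.hD x.he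

lemma decomp (x : Amb) : x = mkU x.v1 x.v2 0 * mkU 0 0 x.w * x.lin := by
  ext <;> simp [Amb.lin, Amb.w]

/-- reflection `diag(1,-1)` -/
def eR : Amb := mkL 1 0 0 (-1) 1 (by norm_num) (by norm_num)
/-- the swap -/
def eP : Amb := mkL 0 1 1 0 1 (by norm_num) (by norm_num)
/-- the third reflection -/
def eQ : Amb := mkL 1 (-1) 0 (-1) 1 (by norm_num) (by norm_num)
/-- transvections -/
def eT (n : ℤ) : Amb := mkL 1 n 0 1 1 (by norm_num) (by norm_num)
/-- minus the identity matrix -/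
def eN : Amb := mkL (-1) 0 0 (-1) 1 (by norm_num) (by norm_num)
/-- an element of order six -/
def eH : Amb := mkL 1 (-1) 1 0 1 (by norm_num) (by norm_num)
/-- rotation by a right angle -/
def eS : Amb := mkL 0 (-1) 1 0 1 (by norm_num) (by norm_num)
/-- the extra sign -/
def eE : Amb := mkL 1 0 0 1 (-1) (by norm_num) (by norm_num)

/-- `GL2(Z)` is generated by three reflections. -/
lemma gen (K : Subgroup Amb) (hR : eR ∈ K) (hP : eP ∈ K) (hQ : eQ ∈ K) (a b c d : ℤ)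
    (hD : (a * d - b * c) * (a * d - b * c) = 1) : mkL a b c d 1 hD (by norm_num) ∈ K := by
  have hT1 : eT 1 ∈ K := by
    have : eT 1 = eQ * eR := by ext <;> simp [eT, eQ, eR]
    rw [this]; exact K.mul_mem hQ hR
  have hT : ∀ n : ℤ, eT n ∈ K := by
    intro n
    induction n using Int.induction_on with
    | zero =>
      have : eT 0 = 1 := by ext <;> simp [eT]
      rw [this]; exact K.one_mem
    | succ n ih =>
      have : eT (n + 1) = eT n * eT 1 := by ext <;> simp [eT]; ring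
      rw [this]; exact K.mul_mem ih hT1
    | pred n ih =>
      have : eT (-(n : ℤ) - 1) = eT (-n) * (eT 1)⁻¹ := by ext <;> simp [eT]; ring
      rw [this]; exact K.mul_mem ih (K.inv_mem hT1)
  have hR' : eP * eR * eP ∈ K := K.mul_mem (K.mul_mem hP hR) hP
  induction h : c.natAbs using Nat.strong_induction_on generalizing a b c d with
  | _ n ih =>
    by_cases hc : c = 0
    · subst hc
      have had : (a * d) * (a * d) = 1 := by linear_combination hD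
      have ha : a = 1 ∨ a = -1 :=
        Int.eq_one_or_neg_one_of_mul_eq_one (v := d * (a * d)) (by linear_combination had)
      have hd : d = 1 ∨ d = -1 :=
        Int.eq_one_or_neg_one_of_mul_eq_one (v := a * (a * d)) (by linear_combination had)
      rcases ha with rfl | rfl <;> rcases hd with rfl | rfl
      · exact hT b
      · have : mkL 1 b 0 (-1) 1 hD (by norm_num) = eT (-b) * eR := by ext <;> simp [eT, eR]
        rw [this]; exact K.mul_mem (hT _) hR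
      · have : mkL (-1) b 0 1 1 hD (by norm_num) = eT b * (eP * eR * eP) := by
          ext <;> simp [eT, eR, eP]
        rw [this]; exact K.mul_mem (hT _) hR'
      · have : mkL (-1) b 0 (-1) 1 hD (by norm_num) = eT (-b) * (eP * eR * eP) * eR := by
          ext <;> simp [eT, eR, eP]
        rw [this]; exact K.mul_mem (K.mul_mem (hT _) hR') hR
    · have hlt : (a % c).natAbs < n := by
        rw [← h]
        have h1 := Int.emod_nonneg a hc
        have h2 := Int.emod_lt_abs a hc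
        rw [← Int.natCast_natAbs] at h2
        omega
      have hD' : (c * (b - a / c * d) - d * (a % c)) * (c * (b - a / c * d) - d * (a % c)) = 1 := by
        rw [Int.emod_def]
        linear_combination hD
      have h1 := ih _ hlt c d (a % c) (b - a / c * d) hD' rfl
      have : mkL a b c d 1 hD (by norm_num) =
          eT (a / c) * eP * mkL c d (a % c) (b - a / c * d) 1 hD' (by norm_num) := by
        ext <;> simp [eT, eP]
        rw [Int.emod_def]; ring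
      rw [this]
      exact K.mul_mem (K.mul_mem (hT _) hP) h1

/-- admissible lattices -/
structure Adm (M : AddSubgroup W) : Prop where
  stable : ∀ (x : Amb) (w : W), w ∈ M → x.act w ∈ M
  two : ((2, 0, 0, 0) : W) ∈ M
  sq : ((0, 1, 0, 0) : W) ∈ M
  int : ∀ t : ℚ, ((0, t, 0, 0) : W) ∈ M → ∃ z : ℤ, t = z

/-- the groups of the tower; `E` says that the extra sign is excluded -/
def Sub {M : AddSubgroup W} (hM : Adm M) (E : Prop) : Subgroup Amb where
  carrier := {x | x.w ∈ M ∧ (E → x.e = 1)}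
  one_mem' := ⟨M.zero_mem, fun _ => rfl⟩
  mul_mem' := by
    rintro x y ⟨hx, hx'⟩ ⟨hy, hy'⟩
    refine ⟨?_, fun h => by simp [hx' h, hy' h]⟩
    rw [mul_w]
    exact M.add_mem (M.add_mem hx (hM.stable _ _ hy)) (M.zsmul_mem hM.two _)
  inv_mem' := by
    rintro x ⟨hx, hx'⟩
    refine ⟨?_, fun h => by simp [hx' h]⟩
    rw [inv_w]
    exact M.neg_mem (hM.stable _ _ hx)

lemma mem_Sub {M : AddSubgroup W} (hM : Adm M) (E : Prop) (x : Amb) :
    x ∈ Sub hM E ↔ x.w ∈ M ∧ (E → x.e = 1) := Iff.rfl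

lemma mkU_mem {M : AddSubgroup W} (hM : Adm M) (E : Prop) (v1 v2 : ℤ) {w : W} (hw : w ∈ M) :
    mkU v1 v2 w ∈ Sub hM E := ⟨hw, fun _ => rfl⟩

lemma mkL_mem {M : AddSubgroup W} (hM : Adm M) (E : Prop) (a b c d : ℤ)
    (hD : (a * d - b * c) * (a * d - b * c) = 1) (he : (1 : ℤ) * 1 = 1) :
    mkL a b c d 1 hD he ∈ Sub hM E := ⟨M.zero_mem, fun _ => rfl⟩

end Pool.Agent.Lib.MP_e1f2e6_al
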