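import Mathlib
import Pool.Agent.Lib.MP_e1f2e6_al.Amb

set_option autoImplicit false

namespace Pool.Agent.Lib.MP_e1f2e6_al

open scoped commutatorElement

lemma IsU.exists_eq {x : Amb} (h : IsU x) : ∃ v1 v2 w, x = mkU v1 v2 w := ⟨_, _, _, h.eq⟩

lemma comm_U {x : Amb} (hx : IsU x) (y : Amb) : IsU ⁅x, y⁆ ∧
    ⁅x, y⁆.v1 = x.v1 - (y.a * x.v1 + y.b * x.v2) ∧ ⁅x, y⁆.v2 = x.v2 - (y.c * x.v1 + y.d * x.v2) ∧
    ⁅x, y⁆.q1 = x.q1 - y.e * (y.a ^ 2 * x.q1 + y.a * y.b * x.q2 + y.b ^ 2 * x.q3) := by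
  obtain ⟨v1, v2, w, rfl⟩ := hx.exists_eq
  have : ⁅mkU v1 v2 w, y⁆ = mkU v1 v2 w * (y * (mkU v1 v2 w)⁻¹ * y⁻¹) := by
    rw [commutatorElement_def]; group
  rw [this, mkU_inv, conj_mkU, mkU_mul]
  refine ⟨isU_mkU _ _ _, ?_, ?_, ?_⟩
  · simp only [mkU_v1, mkU_v2]; ring
  · simp only [mkU_v1, mkU_v2]; ring
  · simp [Amb.act]; ring

lemma engel_of_isU {x : Amb} (hx : IsU x) (z : Amb) : ⁅⁅⁅z, x⁆, x⁆, x⁆ = 1 := by
  have h1 : IsU ⁅z, x⁆ := by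
    rw [commutatorElement_def]
    exact (hx.conj z).mul hx.inv
  obtain ⟨u1, u2, w', h2⟩ := h1.exists_eq
  rw [h2]
  obtain ⟨v1, v2, w, rfl⟩ := hx.exists_eq
  simp only [commutatorElement_def, mkU_mul, mkU_inv]
  ext <;> simp <;> ring

section
variable {M : AddSubgroup W} (hM : Adm M) (E : Prop)

lemma engel_trace {y : Amb} (h : ∀ z ∈ Sub hM E, ⁅⁅⁅z, y⁆, y⁆, y⁆ = 1) :
    y.a + y.d = 2 ∧ y.a * y.d - y.b * y.c = 1 := by
  have key : ∀ v1 v2 : ℤ,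
      (1 - y.a) * ((1 - y.a) * ((1 - y.a) * v1 - y.b * v2) - y.b * ((1 - y.d) * v2 - y.c * v1))
        - y.b * ((1 - y.d) * ((1 - y.d) * v2 - y.c * v1) - y.c * ((1 - y.a) * v1 - y.b * v2)) = 0 ∧
      (1 - y.d) * ((1 - y.d) * ((1 - y.d) * v2 - y.c * v1) - y.c * ((1 - y.a) * v1 - y.b * v2))
        - y.c * ((1 - y.a) * ((1 - y.a) * v1 - y.b * v2) - y.b * ((1 - y.d) * v2 - y.c * v1)) = 0 := by
    intro v1 v2
    have h0 := h _ (mkU_mem hM E v1 v2 M.zero_mem)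
    obtain ⟨a0, a1, a2, -⟩ := comm_U (isU_mkU v1 v2 0) y
    obtain ⟨b0, b1, b2, -⟩ := comm_U a0 y
    obtain ⟨-, e1, e2, -⟩ := comm_U b0 y
    rw [h0, b1, b2, a1, a2] at e1 e2
    simp only [mkU_v1, mkU_v2, Amb.one_v1, Amb.one_v2] at e1 e2
    constructor
    · linear_combination -e1
    · linear_combination -e2
  obtain ⟨h11, h21⟩ := key 1 0
  obtain ⟨h12, h22⟩ := key 0 1
  have hn : ((1 - y.a) * (1 - y.d) - y.b * y.c) ^ 3 = 0 := by
    linear_combination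
      ((1 - y.d) * ((1 - y.d) * (1 - y.d) + y.c * y.b) - y.c * (-((1 - y.a) * y.b) - y.b * (1 - y.d)))
        * h11 -
      ((1 - y.a) * (-((1 - y.a) * y.b) - y.b * (1 - y.d)) - y.b * ((1 - y.d) * (1 - y.d) + y.c * y.b))
        * h21
  have hn' := pow_eq_zero_iff (by norm_num : 3 ≠ 0) |>.mp hn
  have ht : (2 - y.a - y.d) ^ 3 = 0 := by
    linear_combination h11 + h22 + 3 * (2 - y.a - y.d) * hn'
  have ht' := pow_eq_zero_iff (by norm_num : 3 ≠ 0) |>.mp ht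
  constructor
  · linear_combination -ht'
  · linear_combination hn' - ht'

lemma engel_sign {y : Amb} (h : ∀ z ∈ Sub hM E, ⁅⁅⁅z, y⁆, y⁆, y⁆ = 1)
    (ha : y.a = 1) (hb : y.b = 0) : y.e = 1 := by
  have h0 := h _ (mkU_mem hM E 0 0 hM.sq)
  obtain ⟨a0, -, -, a1⟩ := comm_U (isU_mkU 0 0 (0, 1, 0, 0)) y
  obtain ⟨b0, -, -, b1⟩ := comm_U a0 y
  obtain ⟨-, -, -, e1⟩ := comm_U b0 y
  rw [h0, b1, a1] at e1
  simp only [ha, hb, mkU_q1, mkU_q2, mkU_q3, Amb.one_q1] at e1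
  push_cast at e1
  have h4 : ((1 : ℚ) - y.e) ^ 3 = 0 := by linear_combination -e1
  have h5 := pow_eq_zero_iff (by norm_num : 3 ≠ 0) |>.mp h4
  have h6 : (y.e : ℚ) = 1 := by linarith
  exact_mod_cast h6

end

section
variable {M M' : AddSubgroup W} {hM : Adm M} {hM' : Adm M'} {E E' : Prop}

lemma map_isU (φ : Sub hM E ≃* Sub hM' E') (x : Sub hM E) (hx : IsU x) : IsU (φ x) := by
  have key : ∀ x : Sub hM E, IsU x → ∀ z ∈ Sub hM' E',
      ⁅⁅⁅z, (φ x : Amb)⁆, (φ x : Amb)⁆, (φ x : Amb)⁆ = 1 := by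
    intro x hx z hz
    have h1 : ⁅⁅⁅φ.symm ⟨z, hz⟩, x⁆, x⁆, x⁆ = 1 := by
      apply Subtype.ext
      simpa [commutatorElement_def] using engel_of_isU hx (φ.symm ⟨z, hz⟩)
    have h2 := congrArg (fun t => ((φ t : Sub hM' E') : Amb)) h1
    simpa [commutatorElement_def] using h2
  obtain ⟨h1, h2⟩ := engel_trace hM' E' (key x hx)
  let σ : Sub hM' E' := ⟨eS, mkL_mem hM' E' _ _ _ _ _ _⟩
  have hx' : IsU ((x * (φ.symm σ * x⁻¹ * (φ.symm σ)⁻¹) : Sub hM E) : Amb) := by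
    simpa using hx.mul (hx.inv.conj _)
  obtain ⟨h3, -⟩ := engel_trace hM' E' (key _ hx')
  simp only [map_mul, map_inv, MulEquiv.apply_symm_apply, Subgroup.coe_mul, Subgroup.coe_inv,
    σ] at h3
  simp [eS, h2] at h3
  generalize hy : (φ x : Amb) = y at *
  have hb : y.b = 0 := by nlinarith [sq_nonneg (y.a - y.d), sq_nonneg y.b, sq_nonneg y.c]
  have hc : y.c = 0 := by nlinarith [sq_nonneg (y.a - y.d), sq_nonneg y.b, sq_nonneg y.c]
  have had : y.a - y.d = 0 := by nlinarith [sq_nonneg (y.a - y.d), sq_nonneg y.b, sq_nonneg y.c]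
  have ha : y.a = 1 := by omega
  have hd : y.d = 1 := by omega
  refine ⟨ha, hb, hc, hd, ?_⟩
  refine engel_sign hM' E' ?_ ha hb
  rw [← hy]
  exact key x hx

lemma map_center (φ : Sub hM E ≃* Sub hM' E') (x : Sub hM E) (hx : IsU x)
    (h1 : (x : Amb).v1 = 0) (h2 : (x : Amb).v2 = 0) :
    (φ x : Amb).v1 = 0 ∧ (φ x : Amb).v2 = 0 := by
  have key : ∀ u1 u2 : ℤ, (φ x : Amb).v1 * u2 - (φ x : Amb).v2 * u1 = 0 := by
    intro u1 u2
    let t : Sub hM' E' := ⟨mkU u1 u2 0, mkU_mem hM' E' _ _ M'.zero_mem⟩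
    have ht : IsU (φ.symm t) := map_isU φ.symm t (isU_mkU _ _ _)
    have hc : x * φ.symm t = φ.symm t * x := by
      apply Subtype.ext
      simp only [Subgroup.coe_mul]
      obtain ⟨a1, a2, w1, e1⟩ := hx.exists_eq
      obtain ⟨b1, b2, w2, e2⟩ := ht.exists_eq
      rw [e1, mkU_v1] at h1
      rw [e1, mkU_v2] at h2
      rw [e1, e2, h1, h2, mkU_mul, mkU_mul]
      ext <;> simp <;> ring
    have h3 := congrArg (fun t => ((φ t : Sub hM' E') : Amb).s) hc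
    obtain ⟨ha, hb, hc, hd, he⟩ := map_isU φ x hx
    simp [t, ha, hb, hc, hd] at h3
    have h4 : ((φ x : Amb).v1 : ℚ) * u2 - (φ x : Amb).v2 * u1 = 0 := by linarith
    exact_mod_cast h4
  constructor
  · simpa using key 0 1
  · simpa using key 1 0

lemma exists_mat (φ : Sub hM E ≃* Sub hM' E') : ∃ a b c d : ℤ, ∀ x : Sub hM E, IsU x →
    (φ x : Amb).v1 = a * (x : Amb).v1 + b * (x : Amb).v2 ∧
    (φ x : Amb).v2 = c * (x : Amb).v1 + d * (x : Amb).v2 := by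
  let t : ℤ × ℤ → Sub hM E := fun v => ⟨mkU v.1 v.2 0, mkU_mem hM E _ _ M.zero_mem⟩
  have hsplit : ∀ x : Sub hM E, IsU x → (φ x : Amb).v1 = (φ (t ((x : Amb).v1, (x : Amb).v2)) : Amb).v1 ∧
      (φ x : Amb).v2 = (φ (t ((x : Amb).v1, (x : Amb).v2)) : Amb).v2 := by
    intro x hx
    let z : Sub hM E := ⟨mkU 0 0 (x : Amb).w, mkU_mem hM E _ _ x.2.1⟩
    have h1 : x = t ((x : Amb).v1, (x : Amb).v2) * z := by
      apply Subtype.ext
      simp only [Subgroup.coe_mul, t, z, mkU_mul]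
      simpa using hx.eq
    obtain ⟨h2, h3⟩ := map_center φ z (isU_mkU _ _ _) rfl rfl
    constructor
    · conv_lhs => rw [h1]
      simp [h2, h3]
    · conv_lhs => rw [h1]
      simp [h2, h3]
  let f : ℤ × ℤ →+ ℤ × ℤ := AddMonoidHom.mk' (fun v => ((φ (t v) : Amb).v1, (φ (t v) : Amb).v2)) (by
    intro u v
    have hU : IsU ((t u * t v : Sub hM E) : Amb) := (isU_mkU _ _ _).mul (isU_mkU _ _ _)
    obtain ⟨h1, h2⟩ := hsplit _ hU
    obtain ⟨ha, hb, hc, hd, he⟩ := map_isU φ (t u) (isU_mkU _ _ _)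
    simp only [map_mul, Subgroup.coe_mul, Amb.mul_v1, Amb.mul_v2, ha, hb, hc, hd] at h1 h2
    simp only [t, mkU_v1, mkU_v2, mkU_a, mkU_b, mkU_c, mkU_d] at h1 h2
    simp only [one_mul, zero_mul, add_zero] at h1 h2
    ext
    · exact h1.symm
    · exact h2.symm)
  refine ⟨(f (1, 0)).1, (f (0, 1)).1, (f (1, 0)).2, (f (0, 1)).2, fun x hx => ?_⟩
  obtain ⟨h1, h2⟩ := hsplit x hx
  have h3 : ((x : Amb).v1, (x : Amb).v2) =
      (x : Amb).v1 • ((1, 0) : ℤ × ℤ) + (x : Amb).v2 • ((0, 1) : ℤ × ℤ) := by simp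
  have h4 : f ((x : Amb).v1, (x : Amb).v2) = (x : Amb).v1 • f (1, 0) + (x : Amb).v2 • f (0, 1) := by
    rw [h3, map_add, map_zsmul, map_zsmul]
  rw [h1, h2]
  constructor
  · have := congrArg Prod.fst h4
    simp only [Prod.fst_add, Prod.smul_fst, smul_eq_mul] at this
    change (f ((x : Amb).v1, (x : Amb).v2)).1 = _
    linear_combination this
  · have := congrArg Prod.snd h4
    simp only [Prod.snd_add, Prod.smul_snd, smul_eq_mul] at this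
    change (f ((x : Amb).v1, (x : Amb).v2)).2 = _
    linear_combination this

lemma exists_lin (φ : Sub hM E ≃* Sub hM' E') : ∃ a b c d : ℤ,
    (a * d - b * c) * (a * d - b * c) = 1 ∧ ∀ x : Sub hM E, IsU x →
    (φ x : Amb).v1 = a * (x : Amb).v1 + b * (x : Amb).v2 ∧
    (φ x : Amb).v2 = c * (x : Amb).v1 + d * (x : Amb).v2 := by
  obtain ⟨a, b, c, d, h⟩ := exists_mat φ
  obtain ⟨a', b', c', d', h'⟩ := exists_mat φ.symm
  refine ⟨a, b, c, d, ?_, h⟩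
  have key : ∀ u1 u2 : ℤ, u1 = a' * (a * u1 + b * u2) + b' * (c * u1 + d * u2) ∧
      u2 = c' * (a * u1 + b * u2) + d' * (c * u1 + d * u2) := by
    intro u1 u2
    let t : Sub hM E := ⟨mkU u1 u2 0, mkU_mem hM E _ _ M.zero_mem⟩
    obtain ⟨h1, h2⟩ := h t (isU_mkU _ _ _)
    obtain ⟨h3, h4⟩ := h' (φ t) (map_isU φ t (isU_mkU _ _ _))
    rw [MulEquiv.symm_apply_apply, h1, h2] at h3 h4
    exact ⟨h3, h4⟩
  obtain ⟨h1, h2⟩ := key 1 0
  obtain ⟨h3, h4⟩ := key 0 1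
  have h5 : (a * d - b * c) * (a' * d' - b' * c') = 1 := by
    linear_combination (-(c' * b + d' * d)) * h1 + (a' * b + b' * d) * h2 - h4
  rcases Int.eq_one_or_neg_one_of_mul_eq_one h5 with h6 | h6 <;> rw [h6] <;> norm_num

/-- the additive map induced on the centre of the unipotent part -/
def psi (φ : Sub hM E ≃* Sub hM' E') : M →+ W := AddMonoidHom.mk'
  (fun w => (φ ⟨mkU 0 0 w, mkU_mem hM E _ _ w.2⟩ : Amb).w) (by
    intro u v
    have h1 : (⟨mkU 0 0 (u + v : M), mkU_mem hM E _ _ (u + v).2⟩ : Sub hM E) =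
        ⟨mkU 0 0 u, mkU_mem hM E _ _ u.2⟩ * ⟨mkU 0 0 v, mkU_mem hM E _ _ v.2⟩ := by
      apply Subtype.ext
      simp [mkU_mul]
    rw [h1, map_mul, Subgroup.coe_mul, mul_w]
    obtain ⟨h2, h3⟩ := map_center φ ⟨mkU 0 0 u, mkU_mem hM E _ _ u.2⟩ (isU_mkU _ _ _) rfl rfl
    obtain ⟨ha, hb, hc, hd, he⟩ := map_isU φ ⟨mkU 0 0 u, mkU_mem hM E _ _ u.2⟩ (isU_mkU _ _ _)
    simp [h2, h3, Amb.act, ha, hb, hc, hd, he])

lemma map_c (φ : Sub hM E ≃* Sub hM' E') (w : M) :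
    (φ ⟨mkU 0 0 w, mkU_mem hM E _ _ w.2⟩ : Amb) = mkU 0 0 (psi φ w) := by
  obtain ⟨h2, h3⟩ := map_center φ ⟨mkU 0 0 w, mkU_mem hM E _ _ w.2⟩ (isU_mkU _ _ _) rfl rfl
  have h := (map_isU φ ⟨mkU 0 0 w, mkU_mem hM E _ _ w.2⟩ (isU_mkU _ _ _)).eq
  rw [h2, h3] at h
  exact h

lemma psi_mem (φ : Sub hM E ≃* Sub hM' E') (w : M) : psi φ w ∈ M' :=
  (φ ⟨mkU 0 0 w, mkU_mem hM E _ _ w.2⟩).2.1

lemma psi_symm (φ : Sub hM E ≃* Sub hM' E') (w : M) :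
    psi φ.symm ⟨psi φ w, psi_mem φ w⟩ = w := by
  have h1 : (⟨mkU 0 0 (psi φ w), mkU_mem hM' E' _ _ (psi_mem φ w)⟩ : Sub hM' E') =
      φ ⟨mkU 0 0 w, mkU_mem hM E _ _ w.2⟩ := Subtype.ext (map_c φ w).symm
  have h2 := map_c φ.symm ⟨psi φ w, psi_mem φ w⟩
  simp only [h1, MulEquiv.symm_apply_apply] at h2
  exact (congrArg Amb.w h2).symm

lemma four_mem (hM : Adm M) : ((4, 0, 0, 0) : W) ∈ M := by
  have := M.add_mem hM.two hM.two
  norm_num at this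
  exact this

lemma psi_four (φ : Sub hM E ≃* Sub hM' E') (a b c d : ℤ) (h : ∀ x : Sub hM E, IsU x →
    (φ x : Amb).v1 = a * (x : Amb).v1 + b * (x : Amb).v2 ∧
    (φ x : Amb).v2 = c * (x : Amb).v1 + d * (x : Amb).v2) :
    psi φ ⟨(4, 0, 0, 0), four_mem hM⟩ = (4 * ((a : ℚ) * d - b * c), 0, 0, 0) := by
  let t1 : Sub hM E := ⟨mkU 1 0 0, mkU_mem hM E _ _ M.zero_mem⟩
  let t2 : Sub hM E := ⟨mkU 0 1 0, mkU_mem hM E _ _ M.zero_mem⟩
  have h1 : (⟨mkU 0 0 (4, 0, 0, 0), mkU_mem hM E _ _ (four_mem hM)⟩ : Sub hM E) =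
      t1 * t2 * t1⁻¹ * t2⁻¹ := by
    apply Subtype.ext
    simp only [Subgroup.coe_mul, Subgroup.coe_inv, t1, t2, mkU_mul, mkU_inv]
    ext <;> simp
    norm_num
  have h2 := map_c φ ⟨(4, 0, 0, 0), four_mem hM⟩
  simp only [h1, map_mul, map_inv, Subgroup.coe_mul, Subgroup.coe_inv] at h2
  obtain ⟨h3, h4⟩ := h t1 (isU_mkU _ _ _)
  obtain ⟨h5, h6⟩ := h t2 (isU_mkU _ _ _)
  obtain ⟨a1, a2, w1, e1⟩ := (map_isU φ t1 (isU_mkU _ _ _)).exists_eq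
  obtain ⟨b1, b2, w2, e2⟩ := (map_isU φ t2 (isU_mkU _ _ _)).exists_eq
  rw [e1] at h3 h4
  rw [e2] at h5 h6
  simp only [t1, t2, mkU_v1, mkU_v2] at h3 h4 h5 h6
  rw [e1, e2, h3, h4, h5, h6] at h2
  simp only [mkU_mul, mkU_inv] at h2
  have h7 := congrArg Amb.w h2
  simp only [mkU_w] at h7
  rw [← h7]
  ext <;> simp
  ring

/-- an additive map on `M` is determined by its values on a rational basis -/
lemma psi_ext (ψ : M →+ W) (h4 : ((4, 0, 0, 0) : W) ∈ M) (hx : ((0, 1, 0, 0) : W) ∈ M)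
    (hz : ((0, 1, 2, 1) : W) ∈ M) (hy : ((0, 0, 0, 1) : W) ∈ M) (w : M) :
    ψ w = ((w : W).1 / 4) • ψ ⟨_, h4⟩ + ((w : W).2.1 - (w : W).2.2.1 / 2) • ψ ⟨_, hx⟩ +
      ((w : W).2.2.1 / 2) • ψ ⟨_, hz⟩ + ((w : W).2.2.2 - (w : W).2.2.1 / 2) • ψ ⟨_, hy⟩ := by
  set r1 : ℚ := (w : W).1 / 4 with hr1
  set r2 : ℚ := (w : W).2.1 - (w : W).2.2.1 / 2 with hr2
  set r3 : ℚ := (w : W).2.2.1 / 2 with hr3
  set r4 : ℚ := (w : W).2.2.2 - (w : W).2.2.1 / 2 with hr4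
  have e1 := Rat.mul_den_eq_num r1
  have e2 := Rat.mul_den_eq_num r2
  have e3 := Rat.mul_den_eq_num r3
  have e4 := Rat.mul_den_eq_num r4
  set N : ℤ := (r1.den : ℤ) * r2.den * r3.den * r4.den with hN
  have hN0 : (N : ℚ) ≠ 0 := by
    rw [hN]; push_cast
    have := r1.den_nz
    have := r2.den_nz
    have := r3.den_nz
    have := r4.den_nz
    positivity
  have f1 : (((r1.num * r2.den * r3.den * r4.den : ℤ)) : ℚ) = N * r1 := by
    rw [hN]; push_cast; rw [← e1]; ring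
  have f2 : (((r2.num * r1.den * r3.den * r4.den : ℤ)) : ℚ) = N * r2 := by
    rw [hN]; push_cast; rw [← e2]; ring
  have f3 : (((r3.num * r1.den * r2.den * r4.den : ℤ)) : ℚ) = N * r3 := by
    rw [hN]; push_cast; rw [← e3]; ring
  have f4 : (((r4.num * r1.den * r2.den * r3.den : ℤ)) : ℚ) = N * r4 := by
    rw [hN]; push_cast; rw [← e4]; ring
  generalize (r1.num * r2.den * r3.den * r4.den : ℤ) = n1 at f1
  generalize (r2.num * r1.den * r3.den * r4.den : ℤ) = n2 at f2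
  generalize (r3.num * r1.den * r2.den * r4.den : ℤ) = n3 at f3
  generalize (r4.num * r1.den * r2.den * r3.den : ℤ) = n4 at f4
  have key : N • w = n1 • (⟨_, h4⟩ : M) + n2 • (⟨_, hx⟩ : M) + n3 • (⟨_, hz⟩ : M) +
      n4 • (⟨_, hy⟩ : M) := by
    apply Subtype.ext
    ext <;> simp [f1, f2, f3, f4, hr1, hr2, hr3, hr4] <;> ring
  have h := congrArg ψ key
  simp only [map_add, map_zsmul] at h
  simp only [← Int.cast_smul_eq_zsmul ℚ, f1, f2, f3, f4] at h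
  apply smul_right_injective W hN0
  simp only [smul_add, smul_smul]
  exact h

lemma psi_line (φ : Sub hM E ≃* Sub hM' E') (s : ℚ) (hs : ((s, 0, 0, 0) : W) ∈ M) :
    ((s, 0, 0, 0) : W) ∈ M' := by
  obtain ⟨a, b, c, d, hD, h⟩ := exists_lin φ
  have hy : ((0, 0, 0, 1) : W) ∈ M := by
    simpa [Amb.act, eP] using hM.stable eP _ hM.sq
  have hz : ((0, 1, 2, 1) : W) ∈ M := by
    simpa [Amb.act, eT] using hM.stable (eT 1) _ hy
  have h1 := psi_ext (psi φ) (four_mem hM) hM.sq hz hy ⟨_, hs⟩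
  rw [psi_four φ a b c d h] at h1
  have h2 := psi_mem φ ⟨_, hs⟩
  rw [h1] at h2
  have h3 := hM'.stable (mkL a b c d 1 hD (by norm_num)) _ h2
  have hq : ((a : ℚ) * d - b * c) * (a * d - b * c) = 1 := by exact_mod_cast hD
  convert h3 using 1
  ext <;> simp [Amb.act]
  linear_combination (-s) * hq

end

end Pool.Agent.Lib.MP_e1f2e6_al
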