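import Mathlib
import Pool.Agent.Lib.MP_e1f2e6_al.Char

set_option autoImplicit false

namespace Pool.Agent.Lib.MP_e1f2e6_al

variable {M : AddSubgroup W} {hM : Adm M} {E : Prop}

/-- homomorphisms preserving the unipotent part and its translation coordinates -/
def PresV (φ : Sub hM E →* Amb) : Prop :=
  ∀ x : Sub hM E, IsU x → IsU (φ x) ∧ (φ x).v1 = (x : Amb).v1 ∧ (φ x).v2 = (x : Amb).v2

lemma PresV.mat {φ : Sub hM E →* Amb} (h : PresV φ) (x : Sub hM E) :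
    (φ x).a = (x : Amb).a ∧ (φ x).b = (x : Amb).b ∧ (φ x).c = (x : Amb).c ∧
      (φ x).d = (x : Amb).d := by
  have key : ∀ v1 v2 : ℤ, (φ x).a * v1 + (φ x).b * v2 = (x : Amb).a * v1 + (x : Amb).b * v2 ∧
      (φ x).c * v1 + (φ x).d * v2 = (x : Amb).c * v1 + (x : Amb).d * v2 := by
    intro v1 v2
    let t : Sub hM E := ⟨mkU v1 v2 0, mkU_mem hM E _ _ M.zero_mem⟩
    obtain ⟨h1, h2, h3⟩ := h t (isU_mkU _ _ _)
    obtain ⟨u1, u2, w, e1⟩ := h1.exists_eq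
    rw [e1] at h2 h3
    simp only [t, mkU_v1, mkU_v2] at h2 h3
    have hc : ((x * t * x⁻¹ : Sub hM E) : Amb) = x * mkU v1 v2 0 * (x : Amb)⁻¹ := rfl
    obtain ⟨-, h4, h5⟩ := h (x * t * x⁻¹) (by rw [hc]; exact (isU_mkU _ _ _).conj _)
    rw [hc, map_mul, map_mul, map_inv, e1, conj_mkU, conj_mkU, h2, h3] at h4 h5
    exact ⟨h4, h5⟩
  obtain ⟨h1, h2⟩ := key 1 0
  obtain ⟨h3, h4⟩ := key 0 1
  refine ⟨by linarith, by linarith, by linarith, by linarith⟩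

lemma conj_c (x : Amb) (w : W) : x * mkU 0 0 w * x⁻¹ = mkU 0 0 (x.act w) := by
  rw [conj_mkU]; simp

lemma psi_act (φ : Sub hM E ≃* Sub hM E) (x : Sub hM E) (w : M) :
    psi φ ⟨(x : Amb).act w, hM.stable _ _ w.2⟩ = (φ x : Amb).act (psi φ w) := by
  have h1 : (⟨mkU 0 0 ((x : Amb).act w), mkU_mem hM E _ _ (hM.stable _ _ w.2)⟩ : Sub hM E) =
      x * ⟨mkU 0 0 w, mkU_mem hM E _ _ w.2⟩ * x⁻¹ := Subtype.ext (conj_c x w).symm
  have h2 := map_c φ ⟨(x : Amb).act w, hM.stable _ _ w.2⟩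
  simp only [h1, map_mul, map_inv, Subgroup.coe_mul, Subgroup.coe_inv, map_c, conj_c] at h2
  exact (congrArg Amb.w h2).symm

lemma psi_scalar (φ : Sub hM E ≃* Sub hM E)
    (h : PresV ((Sub hM E).subtype.comp φ.toMonoidHom)) :
    ∃ l : ℤ, l * l = 1 ∧ ∀ w : M, psi φ w =
      ((w : W).1, l * (w : W).2.1, l * (w : W).2.2.1, l * (w : W).2.2.2) := by
  have hy : ((0, 0, 0, 1) : W) ∈ M := by
    simpa [Amb.act, eP] using hM.stable eP _ hM.sq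
  have hz : ((0, 1, 2, 1) : W) ∈ M := by
    simpa [Amb.act, eT] using hM.stable (eT 1) _ hy
  have hmat : ∀ x : Sub hM E, (φ x : Amb).a = (x : Amb).a ∧ (φ x : Amb).b = (x : Amb).b ∧
      (φ x : Amb).c = (x : Amb).c ∧ (φ x : Amb).d = (x : Amb).d := fun x => h.mat x
  have hact : ∀ (x : Sub hM E) (w w' : M), (x : Amb).act w = w' →
      psi φ w' = (φ x : Amb).act (psi φ w) := by
    intro x w w' hw
    rw [← psi_act]
    congr 1
    exact Subtype.ext hw.symm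
  let R : Sub hM E := ⟨eR, mkL_mem hM E _ _ _ _ _ _⟩
  let P : Sub hM E := ⟨eP, mkL_mem hM E _ _ _ _ _ _⟩
  let T : Sub hM E := ⟨eT 1, mkL_mem hM E _ _ _ _ _ _⟩
  obtain ⟨Ra, Rb, Rc, Rd⟩ := hmat R
  obtain ⟨Pa, Pb, Pc, Pd⟩ := hmat P
  obtain ⟨Ta, Tb, Tc, Td⟩ := hmat T
  have k1 := hact R ⟨_, hM.sq⟩ ⟨_, hM.sq⟩ (by simp [R, eR, Amb.act])
  have k2 := hact T ⟨_, hM.sq⟩ ⟨_, hM.sq⟩ (by simp [T, eT, Amb.act])
  have k3 := hact P ⟨_, hM.sq⟩ ⟨_, hy⟩ (by simp [P, eP, Amb.act])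
  have k4 := hact T ⟨_, hy⟩ ⟨_, hz⟩ (by simp [T, eT, Amb.act])
  have k5 := hact P ⟨_, hz⟩ ⟨_, hz⟩ (by simp [P, eP, Amb.act])
  have k6 : psi φ ⟨_, hM.sq⟩ ≠ 0 := by
    intro h0
    have h1 := psi_symm φ ⟨_, hM.sq⟩
    have h2 : (⟨psi φ ⟨_, hM.sq⟩, psi_mem φ ⟨_, hM.sq⟩⟩ : M) = 0 := Subtype.ext h0
    rw [h2, map_zero] at h1
    simp [Prod.ext_iff] at h1
  have k7 := psi_four φ 1 0 0 1 (fun x hx => by simpa using (h x hx).2)
  have k8 := psi_mem φ ⟨_, hM.sq⟩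
  have k9 := psi_symm φ.symm ⟨_, hM.sq⟩
  have hext := psi_ext (psi φ) (four_mem hM) hM.sq hz hy
  have hT := (φ T : Amb).heq
  have hP := (φ P : Amb).heq
  simp only [Amb.act, Ra, Rb, Rc, Rd, Pa, Pb, Pc, Pd, Ta, Tb, Tc, Td] at k1 k2 k3 k4 k5
  generalize (φ T : Amb).e = εT at k2 k4 hT
  generalize (φ P : Amb).e = εP at k3 k5 hP
  generalize (φ R : Amb).e = εR at k1
  simp only [R, P, T, eR, eP, eT, mkL_a, mkL_b, mkL_c, mkL_d] at k1 k2 k3 k4 k5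
  generalize psi φ ⟨_, hM.sq⟩ = p at k1 k2 k3 k6 k8 hext
  generalize psi φ ⟨_, hy⟩ = py at k3 k4 hext
  generalize psi φ ⟨_, hz⟩ = pz at k4 k5 hext
  obtain ⟨σ, p1, p2, p3⟩ := p
  simp only [Prod.ext_iff] at k1 k2
  push_cast at k1 k2 k3 k4 k5
  have hσ : σ = 0 := by linarith [k1.1]
  obtain ⟨-, k21, k22, k23⟩ := k2
  have hεT : (εT : ℚ) = 1 := by
    by_contra hne
    have h1 : (εT : ℚ) = -1 := by
      have : ((εT : ℚ) - 1) * (εT + 1) = 0 := by linear_combination hT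
      rcases mul_eq_zero.mp this with h | h
      · exact absurd (by linarith) hne
      · linarith
    rw [h1] at k21 k22 k23
    apply k6
    have h3 : p3 = 0 := by linarith
    have h2 : p2 = 0 := by linarith
    have h1 : p1 = 0 := by linarith
    simp [hσ, h1, h2, h3]
  rw [hεT] at k21 k22 k4
  have h3 : p3 = 0 := by linarith
  have h2 : p2 = 0 := by linarith
  subst hσ h2 h3
  have hp1 : p1 ≠ 0 := by
    intro h0
    apply k6
    simp [h0]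
  subst k3
  subst k4
  simp only [Prod.ext_iff] at k5
  have hεP : (εP : ℚ) = 1 := by
    have h5 := k5.2.1
    have : ((εP : ℚ) - 1) * p1 = 0 := by linear_combination h5 + p1 * hP
    rcases mul_eq_zero.mp this with h | h
    · linarith
    · exact absurd h hp1
  rw [k7, hεP] at hext
  have hfin : ∀ w : M, psi φ w =
      ((w : W).1, p1 * (w : W).2.1, p1 * (w : W).2.2.1, p1 * (w : W).2.2.2) := by
    intro w
    rw [hext w]
    ext <;> simp <;> ring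
  obtain ⟨l, hl⟩ := hM.int _ k8
  have k10 := hfin ⟨psi φ.symm ⟨_, hM.sq⟩, psi_mem φ.symm ⟨_, hM.sq⟩⟩
  have k11 := psi_mem φ.symm ⟨_, hM.sq⟩
  rw [MulEquiv.symm_symm] at k9
  rw [k9] at k10
  dsimp only at k10
  generalize psi φ.symm ⟨_, hM.sq⟩ = p' at k10 k11
  obtain ⟨σ', r1, r2, r3⟩ := p'
  simp only [Prod.ext_iff] at k10
  obtain ⟨j0, j1, j2, j3⟩ := k10
  have j2' : r2 = 0 := by
    rcases mul_eq_zero.mp j2.symm with h | h
    · exact absurd h hp1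
    · exact h
  have j3' : r3 = 0 := by
    rcases mul_eq_zero.mp j3.symm with h | h
    · exact absurd h hp1
    · exact h
  rw [← j0, j2', j3'] at k11
  obtain ⟨l', hl'⟩ := hM.int _ k11
  rw [hl, hl'] at j1
  have j4 : l * l' = 1 := by exact_mod_cast j1.symm
  refine ⟨l, ?_, fun w => by rw [hfin w, hl]⟩
  rcases Int.eq_one_or_neg_one_of_mul_eq_one j4 with h | h <;> rw [h] <;> norm_num

/-- homomorphisms that also fix the centre of the unipotent part -/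
def Good (φ : Sub hM E →* Amb) : Prop :=
  PresV φ ∧ ∀ (w : W) (hw : w ∈ M), φ ⟨mkU 0 0 w, mkU_mem hM E _ _ hw⟩ = mkU 0 0 w

lemma Good.sign {φ : Sub hM E →* Amb} (h : Good φ) (x : Sub hM E) : (φ x).e = (x : Amb).e := by
  obtain ⟨ha, hb, hc, hd⟩ := h.1.mat x
  have h1 : (⟨mkU 0 0 ((x : Amb).act (0, 1, 0, 0)), mkU_mem hM E _ _ (hM.stable _ _ hM.sq)⟩ :
      Sub hM E) = x * ⟨mkU 0 0 (0, 1, 0, 0), mkU_mem hM E _ _ hM.sq⟩ * x⁻¹ :=
    Subtype.ext (conj_c x _).symm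
  have h2 := h.2 _ (hM.stable x _ hM.sq)
  rw [h1, map_mul, map_mul, map_inv, h.2 _ hM.sq, conj_c] at h2
  have h3 := congrArg Amb.q1 h2
  have h4 := congrArg Amb.q3 h2
  simp only [mkU_q1, mkU_q3, Amb.act, ha, hb, hc, hd] at h3 h4
  have hD := (x : Amb).hDq
  have h5 : ((φ x).e : ℚ) = (x : Amb).e := by
    generalize ((φ x).e : ℚ) = e' at h3 h4
    generalize ((x : Amb).e : ℚ) = e at h3 h4
    generalize ((x : Amb).a : ℚ) = a at h3 h4 hD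
    generalize ((x : Amb).b : ℚ) = b at h3 h4 hD
    generalize ((x : Amb).c : ℚ) = c at h3 h4 hD
    generalize ((x : Amb).d : ℚ) = d at h3 h4 hD
    by_contra hne
    have h6 : a ^ 2 = 0 := by
      apply mul_left_cancel₀ (sub_ne_zero.mpr hne)
      linear_combination h3
    have h7 : c ^ 2 = 0 := by
      apply mul_left_cancel₀ (sub_ne_zero.mpr hne)
      linear_combination h4
    rw [pow_eq_zero_iff two_ne_zero] at h6 h7
    rw [h6, h7] at hD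
    norm_num at hD
  exact_mod_cast h5

lemma Good.conj {φ : Sub hM E →* Amb} (h : Good φ) (u1 u2 : ℤ) (w : W) :
    Good ((MulAut.conj (mkU u1 u2 w)).toMonoidHom.comp φ) := by
  constructor
  · intro x hx
    obtain ⟨h1, h2, h3⟩ := h.1 x hx
    obtain ⟨v1, v2, w', e1⟩ := h1.exists_eq
    rw [e1] at h2 h3
    change IsU (mkU u1 u2 w * φ x * (mkU u1 u2 w)⁻¹) ∧
      (mkU u1 u2 w * φ x * (mkU u1 u2 w)⁻¹).v1 = _ ∧ (mkU u1 u2 w * φ x * (mkU u1 u2 w)⁻¹).v2 = _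
    rw [e1, conj_mkU, ← h2, ← h3]
    exact ⟨isU_mkU _ _ _, by simp, by simp⟩
  · intro w' hw'
    change mkU u1 u2 w * φ _ * (mkU u1 u2 w)⁻¹ = _
    rw [h.2 w' hw', conj_c]
    simp [Amb.act]

lemma Good.fixN {φ : Sub hM E →* Amb} (h : Good φ)
    (h1 : (φ ⟨eH, mkL_mem hM E _ _ _ _ _ _⟩).v1 = 0)
    (h2 : (φ ⟨eH, mkL_mem hM E _ _ _ _ _ _⟩).v2 = 0) :
    φ ⟨eN, mkL_mem hM E _ _ _ _ _ _⟩ = eN := by
  let H : Sub hM E := ⟨eH, mkL_mem hM E _ _ _ _ _ _⟩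
  let N : Sub hM E := ⟨eN, mkL_mem hM E _ _ _ _ _ _⟩
  have e1 : N = H * H * H := Subtype.ext (by ext <;> simp [N, H, eN, eH])
  have e2 : N * N = 1 := Subtype.ext (by ext <;> simp [N, eN])
  have h3 : (φ N).v1 = 0 := by rw [e1, map_mul, map_mul]; simp [H, h1, h2]
  have h4 : (φ N).v2 = 0 := by rw [e1, map_mul, map_mul]; simp [H, h1, h2]
  obtain ⟨ha, hb, hc, hd⟩ := h.1.mat N
  have he := h.sign N
  have e3 : φ N * φ N = 1 := by rw [← map_mul, e2, map_one]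
  change φ N = eN
  generalize φ N = y at *
  simp only [N, eN, mkL_a, mkL_b, mkL_c, mkL_d, mkL_e] at ha hb hc hd he
  have f1 := congrArg Amb.s e3
  have f2 := congrArg Amb.q1 e3
  have f3 := congrArg Amb.q2 e3
  have f4 := congrArg Amb.q3 e3
  simp [ha, hb, hc, hd, he, h3, h4] at f1 f2 f3 f4
  ext <;> simp [eN, *]

lemma Good.fixT {φ : Sub hM E →* Amb} (h : Good φ)
    (hN : φ ⟨eN, mkL_mem hM E _ _ _ _ _ _⟩ = eN) (v1 v2 : ℤ) :
    φ ⟨mkU v1 v2 0, mkU_mem hM E _ _ M.zero_mem⟩ = mkU v1 v2 0 := by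
  let N : Sub hM E := ⟨eN, mkL_mem hM E _ _ _ _ _ _⟩
  let t : Sub hM E := ⟨mkU v1 v2 0, mkU_mem hM E _ _ M.zero_mem⟩
  have e1 : N * t * N * t = 1 := Subtype.ext (by ext <;> simp [N, t, eN]; ring)
  have e2 := congrArg φ e1
  rw [map_mul, map_mul, map_mul, map_one, hN] at e2
  obtain ⟨h1, h2, h3⟩ := h.1 t (isU_mkU _ _ _)
  obtain ⟨u1, u2, w, e3⟩ := h1.exists_eq
  change φ t = _
  rw [e3] at h2 h3 e2 ⊢
  simp only [t, mkU_v1, mkU_v2] at h2 h3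
  subst h2 h3
  have f1 := congrArg Amb.s e2
  have f2 := congrArg Amb.q1 e2
  have f3 := congrArg Amb.q2 e2
  have f4 := congrArg Amb.q3 e2
  simp [eN] at f1 f2 f3 f4
  ext <;> simp [f2, f3, f4]
  linarith

lemma fixV {φ : Sub hM E →* Amb}
    (hN : φ ⟨eN, mkL_mem hM E _ _ _ _ _ _⟩ = eN) (x : Sub hM E)
    (hx : (x : Amb) * eN = eN * x) : (φ x).v1 = 0 ∧ (φ x).v2 = 0 := by
  let N : Sub hM E := ⟨eN, mkL_mem hM E _ _ _ _ _ _⟩
  have e1 : x * N = N * x := Subtype.ext hx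
  have e2 := congrArg φ e1
  rw [map_mul, map_mul, hN] at e2
  have f1 := congrArg Amb.v1 e2
  have f2 := congrArg Amb.v2 e2
  simp [eN] at f1 f2
  constructor <;> linarith

lemma Good.eq_of_fix {φ : Sub hM E →* Amb} (h : Good φ)
    (hN : φ ⟨eN, mkL_mem hM E _ _ _ _ _ _⟩ = eN)
    (hR : φ ⟨eR, mkL_mem hM E _ _ _ _ _ _⟩ = eR)
    (hP : φ ⟨eP, mkL_mem hM E _ _ _ _ _ _⟩ = eP)
    (hQ : φ ⟨eQ, mkL_mem hM E _ _ _ _ _ _⟩ = eQ) (x : Sub hM E) : φ x = x := by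
  let K : Subgroup Amb := (φ.eqLocus (Sub hM E).subtype).map (Sub hM E).subtype
  have hK : ∀ y : Sub hM E, (y : Amb) ∈ K ↔ φ y = y := by
    intro y
    constructor
    · rintro ⟨z, hz, e⟩
      have : z = y := Subtype.ext e
      subst this
      exact hz
    · intro hy
      exact ⟨y, hy, rfl⟩
  have hL := gen K ((hK ⟨eR, mkL_mem hM E _ _ _ _ _ _⟩).mpr hR)
    ((hK ⟨eP, mkL_mem hM E _ _ _ _ _ _⟩).mpr hP) ((hK ⟨eQ, mkL_mem hM E _ _ _ _ _ _⟩).mpr hQ)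
  rw [← hK, decomp x]
  refine K.mul_mem (K.mul_mem ?_ ?_) ?_
  · exact (hK ⟨_, mkU_mem hM E _ _ M.zero_mem⟩).mpr (h.fixT hN _ _)
  · exact (hK ⟨_, mkU_mem hM E _ _ x.2.1⟩).mpr (h.2 _ x.2.1)
  rcases Int.eq_one_or_neg_one_of_mul_eq_one (x : Amb).he with he | he
  · have : (x : Amb).lin = mkL _ _ _ _ 1 (x : Amb).hD (by norm_num) := by
      ext <;> simp [Amb.lin, he]
    rw [this]
    exact hL _ _ _ _ _
  · have : (x : Amb).lin = mkL _ _ _ _ 1 (x : Amb).hD (by norm_num) * eE := by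
      ext <;> simp [Amb.lin, he, eE]
    rw [this]
    refine K.mul_mem (hL _ _ _ _ _) ?_
    have hE : eE ∈ Sub hM E := ⟨M.zero_mem, fun hE => by
      have := x.2.2 hE
      omega⟩
    let τ : Sub hM E := ⟨eE, hE⟩
    refine (hK τ).mpr ?_
    obtain ⟨h1, h2⟩ := fixV hN τ (by ext <;> simp [τ, eE, eN])
    obtain ⟨ha, hb, hc, hd⟩ := h.1.mat τ
    have he' := h.sign τ
    have cR : τ * ⟨eR, mkL_mem hM E _ _ _ _ _ _⟩ = ⟨eR, mkL_mem hM E _ _ _ _ _ _⟩ * τ :=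
      Subtype.ext (by ext <;> simp [τ, eE, eR])
    have cP : τ * ⟨eP, mkL_mem hM E _ _ _ _ _ _⟩ = ⟨eP, mkL_mem hM E _ _ _ _ _ _⟩ * τ :=
      Subtype.ext (by ext <;> simp [τ, eE, eP])
    have cQ : τ * ⟨eQ, mkL_mem hM E _ _ _ _ _ _⟩ = ⟨eQ, mkL_mem hM E _ _ _ _ _ _⟩ * τ :=
      Subtype.ext (by ext <;> simp [τ, eE, eQ])
    have dR := congrArg φ cR
    have dP := congrArg φ cP
    have dQ := congrArg φ cQ
    rw [map_mul, map_mul, hR] at dR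
    rw [map_mul, map_mul, hP] at dP
    rw [map_mul, map_mul, hQ] at dQ
    generalize φ τ = y at *
    simp only [τ, eE, mkL_a, mkL_b, mkL_c, mkL_d, mkL_e] at ha hb hc hd he'
    have f1 := congrArg Amb.s dR
    have f2 := congrArg Amb.q2 dR
    have f3 := congrArg Amb.q1 dP
    have f4 := congrArg Amb.q1 dQ
    simp [eR, eP, eQ, h1, h2] at f1 f2 f3 f4
    ext <;> simp [τ, eE, ha, hb, hc, hd, he', h1, h2] <;> linarith

lemma Good.exists_conj_of_fixN {φ : Sub hM E →* Amb} (h : Good φ)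
    (hN : φ ⟨eN, mkL_mem hM E _ _ _ _ _ _⟩ = eN) :
    ∃ n : Amb, ∀ x : Sub hM E, φ x = n * x * n⁻¹ := by
  let R : Sub hM E := ⟨eR, mkL_mem hM E _ _ _ _ _ _⟩
  let P : Sub hM E := ⟨eP, mkL_mem hM E _ _ _ _ _ _⟩
  let Q : Sub hM E := ⟨eQ, mkL_mem hM E _ _ _ _ _ _⟩
  let N : Sub hM E := ⟨eN, mkL_mem hM E _ _ _ _ _ _⟩
  obtain ⟨R1, R2⟩ := fixV hN R (by ext <;> simp [R, eR, eN])
  obtain ⟨P1, P2⟩ := fixV hN P (by ext <;> simp [P, eP, eN])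
  obtain ⟨Q1, Q2⟩ := fixV hN Q (by ext <;> simp [Q, eQ, eN])
  obtain ⟨Ra, Rb, Rc, Rd⟩ := h.1.mat R
  obtain ⟨Pa, Pb, Pc, Pd⟩ := h.1.mat P
  obtain ⟨Qa, Qb, Qc, Qd⟩ := h.1.mat Q
  have Re := h.sign R
  have Pe := h.sign P
  have Qe := h.sign Q
  have c1 : R * R = 1 := Subtype.ext (by ext <;> simp [R, eR])
  have c2 : P * P = 1 := Subtype.ext (by ext <;> simp [P, eP])
  have c3 : Q * Q = 1 := Subtype.ext (by ext <;> simp [Q, eQ])
  have c4 : R * P * (R * P) = N := Subtype.ext (by ext <;> simp [R, P, N, eR, eP, eN])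
  have c5 : P * Q * (P * Q) * (P * Q) = 1 := Subtype.ext (by ext <;> simp [P, Q, eP, eQ])
  have d1 := congrArg φ c1
  have d2 := congrArg φ c2
  have d3 := congrArg φ c3
  have d4 := congrArg φ c4
  have d5 := congrArg φ c5
  simp only [map_mul, map_one] at d1 d2 d3 d4 d5
  rw [hN] at d4
  obtain ⟨r, hr⟩ : ∃ r, φ R = r := ⟨_, rfl⟩
  obtain ⟨p, hp⟩ : ∃ p, φ P = p := ⟨_, rfl⟩
  obtain ⟨q, hq⟩ : ∃ q, φ Q = q := ⟨_, rfl⟩
  rw [hr] at R1 R2 Ra Rb Rc Rd Re d1 d4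
  rw [hp] at P1 P2 Pa Pb Pc Pd Pe d2 d4 d5
  rw [hq] at Q1 Q2 Qa Qb Qc Qd Qe d3 d5
  simp only [R, P, Q, eR, eP, eQ, mkL_a, mkL_b, mkL_c, mkL_d, mkL_e] at Ra Rb Rc Rd Re Pa Pb Pc Pd Pe Qa Qb Qc Qd Qe
  have f1 := congrArg Amb.q1 d1
  have f2 := congrArg Amb.q3 d1
  have f3 := congrArg Amb.q1 d2
  have f4 := congrArg Amb.q2 d2
  have f5 := congrArg Amb.q1 d3
  have f6 := congrArg Amb.q3 d3
  have f7 := congrArg Amb.s d4
  have f8 := congrArg Amb.s d5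
  simp [eN, R1, R2, Ra, Rb, Rc, Rd, Re, P1, P2, Pa, Pb, Pc, Pd, Pe, Q1, Q2, Qa, Qb, Qc, Qd, Qe]
    at f1 f2 f3 f4 f5 f6 f7 f8
  let w : W := (r.s / 2, p.q1 + r.q2 / 2 - q.q1, r.q2 / 2, r.q2 / 2 - q.q1)
  have hG := h.conj 0 0 (-w)
  have key := hG.eq_of_fix ?_ ?_ ?_ ?_
  · refine ⟨mkU 0 0 w, fun x => ?_⟩
    have h1 : mkU 0 0 (-w) * φ x * (mkU 0 0 (-w))⁻¹ = x := key x
    have h2 : mkU 0 0 (-w) = (mkU 0 0 w)⁻¹ := by rw [mkU_inv]; simp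
    rw [← h1, h2]
    group
  · change mkU 0 0 (-w) * φ N * (mkU 0 0 (-w))⁻¹ = _
    rw [hN, mul_inv_eq_iff_eq_mul]
    ext <;> simp [eN]
  · change mkU 0 0 (-w) * φ R * (mkU 0 0 (-w))⁻¹ = _
    rw [hr, mul_inv_eq_iff_eq_mul]
    ext <;> simp [eR, w, R1, R2, Ra, Rb, Rc, Rd, Re] <;> linarith
  · change mkU 0 0 (-w) * φ P * (mkU 0 0 (-w))⁻¹ = _
    rw [hp, mul_inv_eq_iff_eq_mul]
    ext <;> simp [eP, w, P1, P2, Pa, Pb, Pc, Pd, Pe] <;> linarith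
  · change mkU 0 0 (-w) * φ Q * (mkU 0 0 (-w))⁻¹ = _
    rw [hq, mul_inv_eq_iff_eq_mul]
    ext <;> simp [eQ, w, Q1, Q2, Qa, Qb, Qc, Qd, Qe] <;> linarith

lemma Good.exists_conj {φ : Sub hM E →* Amb} (h : Good φ) :
    ∃ n : Amb, ∀ x : Sub hM E, φ x = n * x * n⁻¹ := by
  let H : Sub hM E := ⟨eH, mkL_mem hM E _ _ _ _ _ _⟩
  obtain ⟨Ha, Hb, Hc, Hd⟩ := h.1.mat H
  simp only [H, eH, mkL_a, mkL_b, mkL_c, mkL_d] at Ha Hb Hc Hd
  have hG := h.conj ((φ H).v2 - (φ H).v1) (-(φ H).v1) 0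
  have hN := hG.fixN (by
    change (mkU _ _ 0 * φ H * (mkU _ _ 0)⁻¹).v1 = 0
    simp [H, eH, Ha, Hb, Hc, Hd]) (by
    change (mkU _ _ 0 * φ H * (mkU _ _ 0)⁻¹).v2 = 0
    simp [H, eH, Ha, Hb, Hc, Hd])
  obtain ⟨n, hn⟩ := hG.exists_conj_of_fixN hN
  refine ⟨(mkU ((φ H).v2 - (φ H).v1) (-(φ H).v1) 0)⁻¹ * n, fun x => ?_⟩
  have h1 : mkU ((φ H).v2 - (φ H).v1) (-(φ H).v1) 0 * φ x *
    (mkU ((φ H).v2 - (φ H).v1) (-(φ H).v1) 0)⁻¹ = n * x * n⁻¹ := hn x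
  generalize mkU ((φ H).v2 - (φ H).v1) (-(φ H).v1) 0 = u at h1 ⊢
  calc φ x = u⁻¹ * (u * φ x * u⁻¹) * u := by group
    _ = _ := by rw [h1]; group

lemma conj_lin_mem {y x : Amb} (h1 : y.v1 = 0) (h2 : y.v2 = 0) (h3 : y.w = 0)
    (hx : x ∈ Sub hM E) : y * x * y⁻¹ ∈ Sub hM E := by
  constructor
  · have : (y * x * y⁻¹).w = y.act x.w := by
      rw [mul_w, mul_w, inv_w, h3]
      simp [h1, h2, Amb.act]
    rw [this]
    exact hM.stable _ _ hx.1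
  · intro hE
    have := y.he
    simp only [Amb.mul_e, Amb.inv_e, hx.2 hE]
    linarith

lemma lin_mem_normalizer {y : Amb} (h1 : y.v1 = 0) (h2 : y.v2 = 0) (h3 : y.w = 0) :
    y ∈ Subgroup.normalizer (Sub hM E : Set Amb) := by
  rw [Subgroup.mem_normalizer_iff]
  intro x
  refine ⟨conj_lin_mem h1 h2 h3, fun hx => ?_⟩
  have := conj_lin_mem (y := y⁻¹) (by simp [h1, h2]) (by simp [h1, h2])
    (by rw [inv_w, h3]; simp [Amb.act]) hx
  simpa [mul_assoc] using this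

theorem rigid (φ : Sub hM E ≃* Sub hM E) :
    ∃ n : Amb, ∀ x : Sub hM E, (φ x : Amb) = n * x * n⁻¹ := by
  obtain ⟨a, b, c, d, hD, h⟩ := exists_lin φ
  let g : Amb := mkL a b c d 1 hD (by norm_num)
  have hg : g⁻¹ ∈ Subgroup.normalizer (Sub hM E : Set Amb) :=
    Subgroup.inv_mem _ (lin_mem_normalizer rfl rfl rfl)
  let φ1 : Sub hM E ≃* Sub hM E := φ.trans ((Sub hM E).normalizerMonoidHom ⟨g⁻¹, hg⟩)
  have hφ1 : ∀ x, (φ1 x : Amb) = g⁻¹ * φ x * g⁻¹⁻¹ := fun x => rfl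
  have hV : PresV ((Sub hM E).subtype.comp φ1.toMonoidHom) := by
    intro x hx
    change IsU (φ1 x) ∧ (φ1 x : Amb).v1 = _ ∧ (φ1 x : Amb).v2 = _
    obtain ⟨h1, h2⟩ := h x hx
    obtain ⟨u1, u2, w, e1⟩ := (map_isU φ x hx).exists_eq
    rw [e1] at h1 h2
    simp only [mkU_v1, mkU_v2] at h1 h2
    rw [hφ1, e1, conj_mkU, h1, h2]
    refine ⟨isU_mkU _ _ _, ?_, ?_⟩
    · simp only [g, mkU_v1, Amb.inv_a, Amb.inv_b, mkL_a, mkL_b, mkL_c, mkL_d]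
      linear_combination (x : Amb).v1 * hD
    · simp only [g, mkU_v2, Amb.inv_c, Amb.inv_d, mkL_a, mkL_b, mkL_c, mkL_d]
      linear_combination (x : Amb).v2 * hD
  obtain ⟨l, hl, hpsi⟩ := psi_scalar φ1 hV
  let n0 : Amb := mkL 1 0 0 1 l (by norm_num) hl
  have hG : Good ((MulAut.conj n0).toMonoidHom.comp ((Sub hM E).subtype.comp φ1.toMonoidHom)) := by
    constructor
    · intro x hx
      obtain ⟨h1, h2, h3⟩ := hV x hx
      obtain ⟨u1, u2, w, e1⟩ := h1.exists_eq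
      change IsU (n0 * ((Sub hM E).subtype.comp φ1.toMonoidHom) x * n0⁻¹) ∧
        (n0 * ((Sub hM E).subtype.comp φ1.toMonoidHom) x * n0⁻¹).v1 = _ ∧
        (n0 * ((Sub hM E).subtype.comp φ1.toMonoidHom) x * n0⁻¹).v2 = _
      rw [← h2, ← h3, e1, conj_mkU]
      exact ⟨isU_mkU _ _ _, by simp [n0], by simp [n0]⟩
    · intro w hw
      change n0 * (φ1 ⟨mkU 0 0 (⟨w, hw⟩ : M), _⟩ : Amb) * n0⁻¹ = _
      rw [map_c, conj_c, hpsi]
      have hl' : (l : ℚ) * l = 1 := by exact_mod_cast hl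
      ext <;> simp [n0, Amb.act]
      · linear_combination w.2.1 * hl'
      · linear_combination w.2.2.1 * hl'
      · linear_combination w.2.2.2 * hl'
  obtain ⟨n, hn⟩ := hG.exists_conj
  refine ⟨g * n0⁻¹ * n, fun x => ?_⟩
  have h1 : n0 * (φ1 x : Amb) * n0⁻¹ = n * x * n⁻¹ := hn x
  rw [hφ1] at h1
  calc (φ x : Amb) = g * n0⁻¹ * (n0 * (g⁻¹ * φ x * g⁻¹⁻¹) * n0⁻¹) * n0 * g⁻¹ := by group
    _ = _ := by rw [h1]; group

theorem normalizer_bij : Function.Bijective (Sub hM E).normalizerMonoidHom := by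
  constructor
  · rw [injective_iff_map_eq_one]
    rintro ⟨n, hn⟩ h
    have key : ∀ x : Sub hM E, n * x * n⁻¹ = x := fun x =>
      congrArg (fun f : MulAut (Sub hM E) => (f x : Amb)) h
    have hG : Good (hM := hM) (E := E) (Sub hM E).subtype :=
      ⟨fun x hx => ⟨hx, rfl, rfl⟩, fun _ _ => rfl⟩
    have k1 := key ⟨mkU 1 0 0, mkU_mem hM E _ _ M.zero_mem⟩
    have k2 := key ⟨mkU 0 1 0, mkU_mem hM E _ _ M.zero_mem⟩
    have k3 := key ⟨mkU 0 0 (0, 1, 0, 0), mkU_mem hM E _ _ hM.sq⟩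
    have k4 := key ⟨eN, mkL_mem hM E _ _ _ _ _ _⟩
    have k5 := key ⟨eR, mkL_mem hM E _ _ _ _ _ _⟩
    have k6 := key ⟨eP, mkL_mem hM E _ _ _ _ _ _⟩
    have k7 := key ⟨eQ, mkL_mem hM E _ _ _ _ _ _⟩
    simp only [mul_inv_eq_iff_eq_mul] at k1 k2 k3 k4 k5 k6 k7
    have v1 := congrArg Amb.v1 k4
    have v2 := congrArg Amb.v2 k4
    have a1 := congrArg Amb.v1 k1
    have a2 := congrArg Amb.v2 k1
    have a3 := congrArg Amb.v1 k2
    have a4 := congrArg Amb.v2 k2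
    simp [eN] at v1 v2 a1 a2 a3 a4
    have hv1 : n.v1 = 0 := by omega
    have hv2 : n.v2 = 0 := by omega
    have ha : n.a = 1 := by omega
    have hd : n.d = 1 := by omega
    have a5 := congrArg Amb.q1 k3
    simp [ha, a3] at a5
    have he : n.e = 1 := by
      have : (n.e : ℚ) = 1 := by linarith
      exact_mod_cast this
    have f1 := congrArg Amb.s k5
    have f2 := congrArg Amb.q2 k5
    have f3 := congrArg Amb.q1 k6
    have f4 := congrArg Amb.q1 k7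
    simp [eR, eP, eQ, hv1, hv2] at f1 f2 f3 f4
    apply Subtype.ext
    ext <;> simp [hv1, hv2, ha, hd, he, a2, a3] <;> linarith
  · intro φ
    obtain ⟨n, hn⟩ := rigid φ
    have hmem : n ∈ Subgroup.normalizer (Sub hM E : Set Amb) := by
      rw [Subgroup.mem_normalizer_iff]
      intro x
      constructor
      · intro hx
        rw [← hn ⟨x, hx⟩]
        exact (φ ⟨x, hx⟩).2
      · intro hx
        have h1 := hn (φ.symm ⟨_, hx⟩)
        rw [MulEquiv.apply_symm_apply] at h1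
        have h2 : x = (φ.symm ⟨_, hx⟩ : Amb) := by
          simpa using h1
        rw [h2]
        exact (φ.symm ⟨_, hx⟩).2
    refine ⟨⟨n, hmem⟩, ?_⟩
    ext x : 1
    exact Subtype.ext (hn x).symm

end Pool.Agent.Lib.MP_e1f2e6_al
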