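import Mathlib
import Pool.Agent.Lib.MP_e1f2e6_al.Rigid

set_option autoImplicit false

namespace Pool.Agent.Lib.MP_e1f2e6_al

lemma normalizer_eq {M M' : AddSubgroup W} (hM : Adm M) (hM' : Adm M') (E : Prop)
    (h : ∀ w : W, w ∈ M' ↔ ∀ x : Amb, (E → x.e = 1) → w - x.act w ∈ M) :
    Subgroup.normalizer (Sub hM E : Set Amb) = Sub hM' False := by
  have hc : ∀ (w : W) (y : Amb), (mkU 0 0 w * y * (mkU 0 0 w)⁻¹).w = y.w + (w - y.act w) ∧
      (mkU 0 0 w * y * (mkU 0 0 w)⁻¹).e = y.e := by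
    intro w y
    rw [mkU_inv]
    constructor
    · ext <;> simp [Amb.w, Amb.act] <;> ring
    · simp
  have key : ∀ w : W, mkU 0 0 w ∈ Subgroup.normalizer (Sub hM E : Set Amb) ↔ w ∈ M' := by
    intro w
    rw [h, Subgroup.mem_normalizer_iff]
    constructor
    · intro h1 x hx
      have h2 : x.lin ∈ Sub hM E := ⟨M.zero_mem, hx⟩
      have h3 := ((h1 x.lin).mp h2).1
      rw [(hc w x.lin).1] at h3
      simpa [Amb.lin, Amb.act] using h3
    · intro h1 y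
      rw [mem_Sub, mem_Sub, (hc w y).1, (hc w y).2]
      constructor
      · rintro ⟨h2, h3⟩
        exact ⟨M.add_mem h2 (h1 y h3), h3⟩
      · rintro ⟨h2, h3⟩
        refine ⟨?_, h3⟩
        have := M.sub_mem h2 (h1 y h3)
        simpa using this
  ext x
  have h1 : mkU x.v1 x.v2 0 ∈ Subgroup.normalizer (Sub hM E : Set Amb) :=
    Subgroup.le_normalizer (mkU_mem hM E _ _ M.zero_mem)
  have h2 : x.lin ∈ Subgroup.normalizer (Sub hM E : Set Amb) := lin_mem_normalizer rfl rfl rfl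
  have h3 : x ∈ Subgroup.normalizer (Sub hM E : Set Amb) ↔
      mkU 0 0 x.w ∈ Subgroup.normalizer (Sub hM E : Set Amb) := by
    conv_lhs => rw [decomp x]
    rw [Subgroup.mul_mem_cancel_right _ h2, Subgroup.mul_mem_cancel_left _ h1]
  rw [h3, key, mem_Sub]
  simp

/-- first lattice: integer matrices -/
def M1 : AddSubgroup W where
  carrier := {w | ∃ b11 b12 b21 b22 : ℤ, w = ((b12 : ℚ) - b21, (b11 : ℚ), (b12 : ℚ) + b21, (b22 : ℚ))}
  zero_mem' := ⟨0, 0, 0, 0, by ext <;> simp⟩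
  add_mem' := by
    rintro _ _ ⟨a, b, c, d, rfl⟩ ⟨a', b', c', d', rfl⟩
    exact ⟨a + a', b + b', c + c', d + d', by ext <;> simp <;> ring⟩
  neg_mem' := by
    rintro _ ⟨a, b, c, d, rfl⟩
    exact ⟨-a, -b, -c, -d, by ext <;> simp <;> ring⟩

/-- second lattice -/
def M2 : AddSubgroup W where
  carrier := {w | ∃ s a b c : ℤ, w = ((s : ℚ), (a : ℚ), (b : ℚ), (c : ℚ))}
  zero_mem' := ⟨0, 0, 0, 0, by ext <;> simp⟩
  add_mem' := by
    rintro _ _ ⟨a, b, c, d, rfl⟩ ⟨a', b', c', d', rfl⟩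
    exact ⟨a + a', b + b', c + c', d + d', by ext <;> simp⟩
  neg_mem' := by
    rintro _ ⟨a, b, c, d, rfl⟩
    exact ⟨-a, -b, -c, -d, by ext <;> simp⟩

/-- the later lattices -/
def M3 (k : ℕ) : AddSubgroup W where
  carrier := {w | ∃ s a b c h : ℤ,
    w = ((s : ℚ) / 2 ^ (k + 1), (a : ℚ) + h / 2, (b : ℚ) + h / 2, (c : ℚ) + h / 2)}
  zero_mem' := ⟨0, 0, 0, 0, 0, by ext <;> simp⟩
  add_mem' := by
    rintro _ _ ⟨a, b, c, d, e, rfl⟩ ⟨a', b', c', d', e', rfl⟩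
    exact ⟨a + a', b + b', c + c', d + d', e + e', by ext <;> simp <;> ring⟩
  neg_mem' := by
    rintro _ ⟨a, b, c, d, e, rfl⟩
    exact ⟨-a, -b, -c, -d, -e, by ext <;> simp <;> ring⟩

lemma parity (x : Amb) : ∃ i j k : ℤ, x.e * (x.a ^ 2 + x.a * x.b + x.b ^ 2) = 2 * i + 1 ∧
    x.e * (2 * x.a * x.c + (x.a * x.d + x.b * x.c) + 2 * x.b * x.d) = 2 * j + 1 ∧
    x.e * (x.c ^ 2 + x.c * x.d + x.d ^ 2) = 2 * k + 1 := by
  have hD := x.hD
  have he := x.he
  have h : ∀ n : ℤ, (n : ZMod 2) = 1 → ∃ i, n = 2 * i + 1 := by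
    intro n hn
    have := (ZMod.intCast_eq_one_iff_odd).mp hn
    exact this
  have hD' := congrArg (Int.cast : ℤ → ZMod 2) hD
  have he' := congrArg (Int.cast : ℤ → ZMod 2) he
  push_cast at hD' he'
  have key : ∀ a b c d e : ZMod 2, (a * d - b * c) * (a * d - b * c) = 1 → e * e = 1 →
      e * (a ^ 2 + a * b + b ^ 2) = 1 ∧ e * (2 * a * c + (a * d + b * c) + 2 * b * d) = 1 ∧
      e * (c ^ 2 + c * d + d ^ 2) = 1 := by decide
  obtain ⟨k1, k2, k3⟩ := key _ _ _ _ _ hD' he'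
  obtain ⟨i, hi⟩ := h (x.e * (x.a ^ 2 + x.a * x.b + x.b ^ 2)) (by push_cast; exact k1)
  obtain ⟨j, hj⟩ := h (x.e * (2 * x.a * x.c + (x.a * x.d + x.b * x.c) + 2 * x.b * x.d))
    (by push_cast; exact k2)
  obtain ⟨k, hk⟩ := h (x.e * (x.c ^ 2 + x.c * x.d + x.d ^ 2)) (by push_cast; exact k3)
  exact ⟨i, j, k, hi, hj, hk⟩

lemma det_cases (x : Amb) : (x.a : ℚ) * x.d - x.b * x.c = 1 ∨ (x.a : ℚ) * x.d - x.b * x.c = -1 := by
  rcases Int.eq_one_or_neg_one_of_mul_eq_one x.hD with h | h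
  · left; exact_mod_cast h
  · right; exact_mod_cast h

lemma adm1 : Adm M1 where
  stable := by
    rintro x _ ⟨p, q, r, t, rfl⟩
    rcases Int.eq_one_or_neg_one_of_mul_eq_one x.he with he | he
    · refine ⟨x.a ^ 2 * p + x.a * x.b * (q + r) + x.b ^ 2 * t,
        x.a * x.c * p + x.a * x.d * q + x.b * x.c * r + x.b * x.d * t,
        x.a * x.c * p + x.b * x.c * q + x.a * x.d * r + x.b * x.d * t,
        x.c ^ 2 * p + x.c * x.d * (q + r) + x.d ^ 2 * t, ?_⟩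
      ext <;> simp [Amb.act, he] <;> ring
    · refine ⟨-(x.a ^ 2 * p + x.a * x.b * (q + r) + x.b ^ 2 * t),
        -(x.a * x.c * p + x.b * x.c * q + x.a * x.d * r + x.b * x.d * t),
        -(x.a * x.c * p + x.a * x.d * q + x.b * x.c * r + x.b * x.d * t),
        -(x.c ^ 2 * p + x.c * x.d * (q + r) + x.d ^ 2 * t), ?_⟩
      ext <;> simp [Amb.act, he] <;> ring
  two := ⟨0, 1, -1, 0, by norm_num⟩
  sq := ⟨1, 0, 0, 0, by norm_num⟩
  int := by
    rintro t ⟨p, q, r, s, h⟩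
    exact ⟨p, congrArg (fun w : W => w.2.1) h⟩

lemma adm2 : Adm M2 where
  stable := by
    rintro x _ ⟨s, p, q, t, rfl⟩
    refine ⟨(x.a * x.d - x.b * x.c) * s, x.e * (x.a ^ 2 * p + x.a * x.b * q + x.b ^ 2 * t),
      x.e * (2 * x.a * x.c * p + (x.a * x.d + x.b * x.c) * q + 2 * x.b * x.d * t),
      x.e * (x.c ^ 2 * p + x.c * x.d * q + x.d ^ 2 * t), ?_⟩
    ext <;> simp [Amb.act]
  two := ⟨2, 0, 0, 0, by norm_num⟩
  sq := ⟨0, 1, 0, 0, by norm_num⟩
  int := by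
    rintro t ⟨p, q, r, s, h⟩
    exact ⟨q, congrArg (fun w : W => w.2.1) h⟩

lemma act3 (x : Amb) (k : ℕ) (s p q t h : ℤ) : ∃ p' q' t' : ℤ,
    x.act ((s : ℚ) / 2 ^ (k + 1), (p : ℚ) + h / 2, (q : ℚ) + h / 2, (t : ℚ) + h / 2) =
      (((x.a : ℚ) * x.d - x.b * x.c) * (s / 2 ^ (k + 1)),
        (p' : ℚ) + h / 2, (q' : ℚ) + h / 2, (t' : ℚ) + h / 2) := by
  obtain ⟨i, j, l, hi, hj, hl⟩ := parity x
  have hi' := congrArg (Int.cast : ℤ → ℚ) hi
  have hj' := congrArg (Int.cast : ℤ → ℚ) hj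
  have hl' := congrArg (Int.cast : ℤ → ℚ) hl
  push_cast at hi' hj' hl'
  refine ⟨x.e * (x.a ^ 2 * p + x.a * x.b * q + x.b ^ 2 * t) + h * i,
      x.e * (2 * x.a * x.c * p + (x.a * x.d + x.b * x.c) * q + 2 * x.b * x.d * t) + h * j,
      x.e * (x.c ^ 2 * p + x.c * x.d * q + x.d ^ 2 * t) + h * l, ?_⟩
  ext <;> simp only [Amb.act] <;> push_cast
  · linear_combination (h : ℚ) / 2 * hi'
  · linear_combination (h : ℚ) / 2 * hj'
  · linear_combination (h : ℚ) / 2 * hl'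

lemma adm3 (k : ℕ) : Adm (M3 k) where
  stable := by
    rintro x _ ⟨s, p, q, t, h, rfl⟩
    obtain ⟨p', q', t', e⟩ := act3 x k s p q t h
    refine ⟨(x.a * x.d - x.b * x.c) * s, p', q', t', h, ?_⟩
    rw [e]
    ext <;> simp
    ring
  two := ⟨2 * 2 ^ (k + 1), 0, 0, 0, 0, by simp⟩
  sq := ⟨0, 1, 0, 0, 0, by norm_num⟩
  int := by
    rintro t ⟨s, p, q, r, h, e⟩
    simp only [Prod.ext_iff] at e
    exact ⟨p - q, by push_cast; linarith [e.2.1, e.2.2.1]⟩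

/-- the transposed transvection -/
def eT' : Amb := mkL 1 0 1 1 1 (by norm_num) (by norm_num)

lemma norm1 : Subgroup.normalizer (Sub adm1 True : Set Amb) = Sub adm2 False := by
  apply normalizer_eq adm1 adm2
  · intro w
    constructor
    · rintro ⟨s, p, q, t, rfl⟩ x hx
      have h1 : (((s : ℚ), (p : ℚ), (q : ℚ), (t : ℚ)) : W) =
          ((q : ℚ), (p : ℚ), (q : ℚ), (t : ℚ)) + (((s - q : ℤ) : ℚ), 0, 0, 0) := by
        ext <;> simp
      have h2 : (((q : ℚ), (p : ℚ), (q : ℚ), (t : ℚ)) : W) ∈ M1 := ⟨p, q, 0, t, by simp⟩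
      have h3 : ∀ u v : W, u + v - x.act (u + v) = (u - x.act u) + (v - x.act v) := by
        intro u v
        ext <;> simp [Amb.act] <;> ring
      rw [h1, h3]
      refine M1.add_mem (M1.sub_mem h2 (adm1.stable _ _ h2)) ?_
      rcases det_cases x with h | h
      · exact ⟨0, 0, 0, 0, by ext <;> simp [Amb.act, h]⟩
      · exact ⟨0, s - q, -(s - q), 0, by ext <;> simp [Amb.act, h]⟩
    · intro h
      obtain ⟨s, p, q, t⟩ := w
      obtain ⟨a1, b1, c1, d1, e1⟩ := h (eT 1) (fun _ => rfl)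
      obtain ⟨a2, b2, c2, d2, e2⟩ := h eT' (fun _ => rfl)
      obtain ⟨a3, b3, c3, d3, e3⟩ := h eR (fun _ => rfl)
      simp only [Amb.act, eT, eT', eR, mkL_a, mkL_b, mkL_c, mkL_d, mkL_e, Prod.ext_iff,
        Prod.fst_sub, Prod.snd_sub] at e1 e2 e3
      push_cast at e1 e2 e3
      obtain ⟨e11, e12, e13, e14⟩ := e1
      obtain ⟨e21, e22, e23, e24⟩ := e2
      obtain ⟨e31, e32, e33, e34⟩ := e3
      refine ⟨b3 + a1 - b1, -b2, b1 - a1, -b1, ?_⟩
      ext <;> simp <;> linarith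

lemma norm2 : Subgroup.normalizer (Sub adm2 False : Set Amb) = Sub (adm3 0) False := by
  apply normalizer_eq adm2 (adm3 0)
  · intro w
    constructor
    · rintro ⟨s, p, q, t, h, rfl⟩ x -
      obtain ⟨p', q', t', e⟩ := act3 x 0 s p q t h
      rw [e]
      rcases det_cases x with h | h
      · exact ⟨0, p - p', q - q', t - t', by simp [h]⟩
      · exact ⟨s, p - p', q - q', t - t', by simp [h]⟩
    · intro h
      obtain ⟨s, p, q, t⟩ := w
      obtain ⟨a1, b1, c1, d1, e1⟩ := h (eT 1) False.elim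
      obtain ⟨a2, b2, c2, d2, e2⟩ := h eT' False.elim
      obtain ⟨a3, b3, c3, d3, e3⟩ := h eR False.elim
      simp only [Amb.act, eT, eT', eR, mkL_a, mkL_b, mkL_c, mkL_d, mkL_e, Prod.ext_iff,
        Prod.fst_sub, Prod.snd_sub] at e1 e2 e3
      push_cast at e1 e2 e3
      obtain ⟨e11, e12, e13, e14⟩ := e1
      obtain ⟨e21, e22, e23, e24⟩ := e2
      obtain ⟨e31, e32, e33, e34⟩ := e3
      refine ⟨a3, -d2 - c3, 0, -b1 - c3, c3, ?_⟩
      ext <;> simp <;> linarith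

lemma norm3 (k : ℕ) :
    Subgroup.normalizer (Sub (adm3 k) False : Set Amb) = Sub (adm3 (k + 1)) False := by
  apply normalizer_eq (adm3 k) (adm3 (k + 1))
  · intro w
    constructor
    · rintro ⟨s, p, q, t, h, rfl⟩ x -
      obtain ⟨p', q', t', e⟩ := act3 x (k + 1) s p q t h
      rw [e]
      rcases det_cases x with h | h
      · exact ⟨0, p - p', q - q', t - t', 0, by simp [h]⟩
      · refine ⟨s, p - p', q - q', t - t', 0, ?_⟩
        ext <;> simp [h]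
        field_simp
        ring
    · intro h
      obtain ⟨s, p, q, t⟩ := w
      obtain ⟨a1, b1, c1, d1, h1, e1⟩ := h (eT 1) False.elim
      obtain ⟨a2, b2, c2, d2, h2, e2⟩ := h eT' False.elim
      obtain ⟨a3, b3, c3, d3, h3, e3⟩ := h eR False.elim
      simp only [Amb.act, eT, eT', eR, mkL_a, mkL_b, mkL_c, mkL_d, mkL_e, Prod.ext_iff,
        Prod.fst_sub, Prod.snd_sub] at e1 e2 e3
      push_cast at e1 e2 e3
      obtain ⟨e11, e12, e13, e14⟩ := e1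
      obtain ⟨e21, e22, e23, e24⟩ := e2
      obtain ⟨e31, e32, e33, e34⟩ := e3
      refine ⟨a3, b2 - d2 - (c3 - b3), 0, d1 - b1 - (c3 - b3), c3 - b3, ?_⟩
      ext <;> simp
      · rw [pow_succ, ← div_div, ← e31]; ring
      all_goals linarith

/-- the tower above the first automorphism group -/
def B : ℕ → Subgroup Amb
  | 0 => Sub adm1 True
  | 1 => Sub adm2 False
  | (k + 2) => Sub (adm3 k) False

lemma step {M : AddSubgroup W} (hM : Adm M) (E : Prop) (H : Subgroup Amb)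
    (h : Subgroup.normalizer (Sub hM E : Set Amb) = H) : Nonempty (H ≃* MulAut (Sub hM E)) :=
  ⟨(MulEquiv.subgroupCongr h.symm).trans (MulEquiv.ofBijective _ normalizer_bij)⟩

lemma B_step : ∀ n : ℕ, Nonempty (B (n + 1) ≃* MulAut (B n))
  | 0 => step _ _ _ norm1
  | 1 => step _ _ _ norm2
  | (k + 2) => step _ _ _ (norm3 k)

lemma B_not_iso {k l : ℕ} (h : k < l) : IsEmpty (B (l + 2) ≃* B (k + 2)) := by
  constructor
  intro φ
  have h1 : (((1 : ℚ) / 2 ^ (l + 1), 0, 0, 0) : W) ∈ M3 l := ⟨1, 0, 0, 0, 0, by simp⟩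
  obtain ⟨s, p, q, t, e, h2⟩ := psi_line (hM := adm3 l) (hM' := adm3 k) φ _ h1
  have h3 : (1 : ℚ) / 2 ^ (l + 1) = s / 2 ^ (k + 1) := congrArg Prod.fst h2
  obtain ⟨m, rfl⟩ := Nat.exists_eq_add_of_lt h
  have h4 : (1 : ℚ) = 2 * (s * 2 ^ m) := by
    field_simp at h3
    rw [show k + m + 1 + 1 = (k + 1) + (m + 1) by ring, pow_add] at h3
    have hp : (2 : ℚ) ^ (k + 1) ≠ 0 := by positivity
    apply mul_left_cancel₀ hp
    linear_combination h3
  have h5 : (1 : ℤ) = 2 * (s * 2 ^ m) := by exact_mod_cast h4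
  omega

end Pool.Agent.Lib.MP_e1f2e6_al
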