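import Mathlib
import Pool.Agent.Lib.MP_e1f2e6_al.Tower

set_option autoImplicit false

namespace Pool.Agent.Lib.MP_e1f2e6_al

open scoped commutatorElement

/-- A lattice in the free nilpotent Lie group of rank two and class three, in exponential
coordinates. -/
@[ext] structure Gr where
  a1 : ℤ
  a2 : ℤ
  s : ℤ
  p1 : ℤ
  p2 : ℤ

namespace Gr

instance : Mul Gr := ⟨fun x y =>
  { a1 := x.a1 + y.a1
    a2 := x.a2 + y.a2
    s := x.s + y.s + 3 * (x.a1 * y.a2 - x.a2 * y.a1)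
    p1 := x.p1 + y.p1 + 6 * (y.s * x.a1 - x.s * y.a1) +
      6 * (x.a1 * y.a2 - x.a2 * y.a1) * (x.a1 - y.a1)
    p2 := x.p2 + y.p2 + 6 * (y.s * x.a2 - x.s * y.a2) +
      6 * (x.a1 * y.a2 - x.a2 * y.a1) * (x.a2 - y.a2) }⟩

instance : One Gr := ⟨⟨0, 0, 0, 0, 0⟩⟩

instance : Inv Gr := ⟨fun x => ⟨-x.a1, -x.a2, -x.s, -x.p1, -x.p2⟩⟩

variable (x y : Gr)

@[simp] lemma mul_a1 : (x * y).a1 = x.a1 + y.a1 := rfl
@[simp] lemma mul_a2 : (x * y).a2 = x.a2 + y.a2 := rfl
@[simp] lemma mul_s : (x * y).s = x.s + y.s + 3 * (x.a1 * y.a2 - x.a2 * y.a1) := rfl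
@[simp] lemma mul_p1 : (x * y).p1 = x.p1 + y.p1 + 6 * (y.s * x.a1 - x.s * y.a1) +
      6 * (x.a1 * y.a2 - x.a2 * y.a1) * (x.a1 - y.a1) := rfl
@[simp] lemma mul_p2 : (x * y).p2 = x.p2 + y.p2 + 6 * (y.s * x.a2 - x.s * y.a2) +
      6 * (x.a1 * y.a2 - x.a2 * y.a1) * (x.a2 - y.a2) := rfl
@[simp] lemma one_a1 : (1 : Gr).a1 = 0 := rfl
@[simp] lemma one_a2 : (1 : Gr).a2 = 0 := rfl
@[simp] lemma one_s : (1 : Gr).s = 0 := rfl
@[simp] lemma one_p1 : (1 : Gr).p1 = 0 := rfl
@[simp] lemma one_p2 : (1 : Gr).p2 = 0 := rfl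
@[simp] lemma inv_a1 : x⁻¹.a1 = -x.a1 := rfl
@[simp] lemma inv_a2 : x⁻¹.a2 = -x.a2 := rfl
@[simp] lemma inv_s : x⁻¹.s = -x.s := rfl
@[simp] lemma inv_p1 : x⁻¹.p1 = -x.p1 := rfl
@[simp] lemma inv_p2 : x⁻¹.p2 = -x.p2 := rfl

instance : Group Gr := Group.ofLeftAxioms
  (fun x y z => by ext <;> simp <;> ring)
  (fun x => by ext <;> simp)
  (fun x => by
    ext <;> simp only [mul_a1, mul_a2, mul_s, mul_p1, mul_p2, inv_a1, inv_a2, inv_s, inv_p1, inv_p2,
      one_a1, one_a2, one_s, one_p1, one_p2] <;> ring)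

lemma pow_eq (n : ℕ) : x ^ n = ⟨n * x.a1, n * x.a2, n * x.s, n * x.p1, n * x.p2⟩ := by
  induction n with
  | zero => ext <;> simp
  | succ n ih => rw [pow_succ, ih]; ext <;> simp <;> ring

lemma zpow_eq (n : ℤ) : x ^ n = ⟨n * x.a1, n * x.a2, n * x.s, n * x.p1, n * x.p2⟩ := by
  obtain ⟨m, rfl | rfl⟩ := Int.eq_nat_or_neg n
  · rw [zpow_natCast, pow_eq]
  · rw [zpow_neg, zpow_natCast, pow_eq]; ext <;> simp

lemma pow_inj {n : ℕ} (hn : n ≠ 0) {x y : Gr} (h : x ^ n = y ^ n) : x = y := by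
  rw [pow_eq, pow_eq] at h
  have hn' : (n : ℤ) ≠ 0 := by exact_mod_cast hn
  simp only [Gr.mk.injEq, mul_eq_mul_left_iff, hn', or_false] at h
  obtain ⟨h1, h2, h3, h4, h5⟩ := h
  exact Gr.ext h1 h2 h3 h4 h5

end Gr

/-- generators -/
def gx : Gr := ⟨1, 0, 0, 0, 0⟩
/-- generators -/
def gy : Gr := ⟨0, 1, 0, 0, 0⟩
/-- generators -/
def gz : Gr := ⟨0, 0, 1, 0, 0⟩
/-- generators -/
def gu : Gr := ⟨0, 0, 0, 1, 0⟩
/-- generators -/
def gv : Gr := ⟨0, 0, 0, 0, 1⟩

lemma closure_gens : Subgroup.closure ({gx, gy, gz, gu, gv} : Set Gr) = ⊤ := by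
  rw [eq_top_iff]
  intro g _
  set K := Subgroup.closure ({gx, gy, gz, gu, gv} : Set Gr)
  have hx : gx ∈ K := Subgroup.subset_closure (by simp)
  have hy : gy ∈ K := Subgroup.subset_closure (by simp)
  have hz : gz ∈ K := Subgroup.subset_closure (by simp)
  have hu : gu ∈ K := Subgroup.subset_closure (by simp)
  have hv : gv ∈ K := Subgroup.subset_closure (by simp)
  have h1 : ∀ h : Gr, h.a1 = 0 → h.a2 = 0 → h ∈ K := by
    intro h h1 h2
    have : h = gz ^ h.s * gu ^ h.p1 * gv ^ h.p2 := by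
      simp only [Gr.zpow_eq]
      ext <;> simp [gz, gu, gv, h1, h2]
    rw [this]
    exact K.mul_mem (K.mul_mem (K.zpow_mem hz _) (K.zpow_mem hu _)) (K.zpow_mem hv _)
  have h2 : (gx ^ g.a1 * gy ^ g.a2)⁻¹ * g ∈ K := by
    apply h1 <;> simp [Gr.zpow_eq, gx, gy]
  have h3 := K.mul_mem (K.mul_mem (K.zpow_mem hx g.a1) (K.zpow_mem hy g.a2)) h2
  rwa [mul_inv_cancel_left] at h3

lemma gr_fg : Group.FG Gr := Group.fg_iff.mpr ⟨_, closure_gens, Set.toFinite _⟩

lemma gr_nilpotent : Group.IsNilpotent Gr := by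
  refine ⟨⟨3, ?_⟩⟩
  have h1 : ∀ x : Gr, x.a1 = 0 → x.a2 = 0 → x.s = 0 → x ∈ Subgroup.upperCentralSeries Gr 1 := by
    intro x h1 h2 h3
    rw [Subgroup.mem_upperCentralSeries_succ_iff]
    intro y
    rw [Subgroup.upperCentralSeries_zero, Subgroup.mem_bot, commutatorElement_def]
    ext <;> simp only [Gr.mul_a1, Gr.mul_a2, Gr.mul_s, Gr.mul_p1, Gr.mul_p2, Gr.inv_a1, Gr.inv_a2,
      Gr.inv_s, Gr.inv_p1, Gr.inv_p2, Gr.one_a1, Gr.one_a2, Gr.one_s, Gr.one_p1, Gr.one_p2,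
      h1, h2, h3] <;> ring
  have h2 : ∀ x : Gr, x.a1 = 0 → x.a2 = 0 → x ∈ Subgroup.upperCentralSeries Gr 2 := by
    intro x h2 h3
    rw [Subgroup.mem_upperCentralSeries_succ_iff]
    intro y
    apply h1 <;> simp [commutatorElement_def, h2, h3]
    ring
  rw [eq_top_iff]
  intro x _
  rw [Subgroup.mem_upperCentralSeries_succ_iff]
  intro y
  apply h2 <;> simp [commutatorElement_def]

lemma hom_ext {H : Type*} [Group H] (hH : ∀ a b : H, a ^ 72 = b ^ 72 → a = b) {f g : Gr →* H}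
    (hx : f gx = g gx) (hy : f gy = g gy) : f = g := by
  have eu : gu ^ 72 = ⁅gx, ⁅gx, gy⁆⁆ := by
    rw [Gr.pow_eq]; ext <;> simp [commutatorElement_def, gx, gy, gu]
  have ev : gv ^ 72 = ⁅gy, ⁅gx, gy⁆⁆ := by
    rw [Gr.pow_eq]; ext <;> simp [commutatorElement_def, gx, gy, gv]
  have ez : gz ^ 6 * gu ^ 36 * gv ^ 36 = ⁅gx, gy⁆ := by
    simp only [Gr.pow_eq]; ext <;> simp [commutatorElement_def, gx, gy, gz, gu, gv]
  have hu : f gu = g gu := by
    apply hH
    rw [← map_pow, ← map_pow, eu]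
    simp only [map_commutatorElement, hx, hy]
  have hv : f gv = g gv := by
    apply hH
    rw [← map_pow, ← map_pow, ev]
    simp only [map_commutatorElement, hx, hy]
  have hz : f gz = g gz := by
    have h1 : f (gz ^ 6 * gu ^ 36 * gv ^ 36) = g (gz ^ 6 * gu ^ 36 * gv ^ 36) := by
      rw [ez]; simp only [map_commutatorElement, hx, hy]
    simp only [map_mul, map_pow, hu, hv, mul_left_inj] at h1
    apply hH
    rw [show (72 : ℕ) = 6 * 12 by norm_num, pow_mul, pow_mul, h1]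
  apply MonoidHom.eq_of_eqOn_dense closure_gens
  rintro g (rfl | rfl | rfl | rfl | rfl) <;> assumption

/-- first coordinate as a homomorphism -/
def linHom (k l : ℤ) : Gr →* Multiplicative ℤ where
  toFun g := Multiplicative.ofAdd (k * g.a1 + l * g.a2)
  map_one' := by simp
  map_mul' g h := by
    rw [← ofAdd_add]
    congr 1
    simp only [Gr.mul_a1, Gr.mul_a2]
    ring

lemma end_lin (φ : Gr →* Gr) (g : Gr) : (φ g).a1 = (φ gx).a1 * g.a1 + (φ gy).a1 * g.a2 ∧
    (φ g).a2 = (φ gx).a2 * g.a1 + (φ gy).a2 * g.a2 := by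
  have hH : ∀ a b : Multiplicative ℤ, a ^ 72 = b ^ 72 → a = b := by
    intro a b h
    have := congrArg Multiplicative.toAdd h
    simp only [toAdd_pow, nsmul_eq_mul] at this
    apply Multiplicative.toAdd.injective
    omega
  have h1 : (linHom 1 0).comp φ = linHom (φ gx).a1 (φ gy).a1 :=
    hom_ext hH (by simp [linHom, gx]) (by simp [linHom, gy])
  have h2 : (linHom 0 1).comp φ = linHom (φ gx).a2 (φ gy).a2 :=
    hom_ext hH (by simp [linHom, gx]) (by simp [linHom, gy])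
  constructor
  · have := congrArg Multiplicative.toAdd (DFunLike.congr_fun h1 g)
    simp only [linHom, MonoidHom.comp_apply, MonoidHom.coe_mk, OneHom.coe_mk, toAdd_ofAdd] at this
    linarith
  · have := congrArg Multiplicative.toAdd (DFunLike.congr_fun h2 g)
    simp only [linHom, MonoidHom.comp_apply, MonoidHom.coe_mk, OneHom.coe_mk, toAdd_ofAdd] at this
    linarith

lemma aut_det (φ : MulAut Gr) :
    ((φ gx).a1 * (φ gy).a2 - (φ gy).a1 * (φ gx).a2) *
      ((φ gx).a1 * (φ gy).a2 - (φ gy).a1 * (φ gx).a2) = 1 := by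
  obtain ⟨h1, h2⟩ := end_lin φ.symm.toMonoidHom (φ gx)
  obtain ⟨h3, h4⟩ := end_lin φ.symm.toMonoidHom (φ gy)
  simp only [MulEquiv.toMonoidHom_eq_coe, MonoidHom.coe_coe, MulEquiv.symm_apply_apply] at h1 h2 h3 h4
  generalize φ.symm gx = x' at *
  generalize φ.symm gy = y' at *
  generalize φ gx = x at *
  generalize φ gy = y at *
  simp only [gx, gy] at h1 h2 h3 h4
  have h5 : (x.a1 * y.a2 - y.a1 * x.a2) * (x'.a1 * y'.a2 - y'.a1 * x'.a2) = 1 := by
    linear_combination (-(x'.a2 * y.a1 + y'.a2 * y.a2)) * h1 + (x'.a1 * y.a1 + y'.a1 * y.a2) * h2 - h4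
  rcases Int.eq_one_or_neg_one_of_mul_eq_one h5 with h6 | h6 <;> rw [h6] <;> norm_num

/-- integer matrix entries of an element of the first group -/
def B11 (x : Amb) : ℤ := x.q1.num
/-- integer matrix entries of an element of the first group -/
def B12 (x : Amb) : ℤ := ((x.q2 + x.s) / 2).num
/-- integer matrix entries of an element of the first group -/
def B21 (x : Amb) : ℤ := ((x.q2 - x.s) / 2).num
/-- integer matrix entries of an element of the first group -/
def B22 (x : Amb) : ℤ := x.q3.num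

lemma B_cast {x : Amb} (hx : x ∈ Sub adm1 True) : (B11 x : ℚ) = x.q1 ∧
    (B12 x : ℚ) = (x.q2 + x.s) / 2 ∧ (B21 x : ℚ) = (x.q2 - x.s) / 2 ∧ (B22 x : ℚ) = x.q3 := by
  obtain ⟨⟨p, q, r, t, h⟩, -⟩ := hx
  simp only [Amb.w, Prod.ext_iff] at h
  obtain ⟨h1, h2, h3, h4⟩ := h
  have e1 : (x.q2 + x.s) / 2 = q := by rw [h1, h3]; ring
  have e2 : (x.q2 - x.s) / 2 = r := by rw [h1, h3]; ring
  simp only [B11, B12, B21, B22]
  rw [e1, e2, h2, h4]
  simp

/-- the action of the first group on `Gr` -/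
def actG (x : Amb) (g : Gr) : Gr :=
  { a1 := x.a * g.a1 + x.b * g.a2
    a2 := x.c * g.a1 + x.d * g.a2
    s := (x.a * x.d - x.b * x.c) * g.s +
      (x.v1 * (x.c * g.a1 + x.d * g.a2) - x.v2 * (x.a * g.a1 + x.b * g.a2))
    p1 := (x.a * x.d - x.b * x.c) * (x.a * g.p1 + x.b * g.p2) +
      2 * (x.a * x.d - x.b * x.c) * g.s * x.v1 +
      (B11 x * (x.c * g.a1 + x.d * g.a2) - B12 x * (x.a * g.a1 + x.b * g.a2)) +
      x.v1 * (x.v1 * (x.c * g.a1 + x.d * g.a2) - x.v2 * (x.a * g.a1 + x.b * g.a2))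
    p2 := (x.a * x.d - x.b * x.c) * (x.c * g.p1 + x.d * g.p2) +
      2 * (x.a * x.d - x.b * x.c) * g.s * x.v2 +
      (B21 x * (x.c * g.a1 + x.d * g.a2) - B22 x * (x.a * g.a1 + x.b * g.a2)) +
      x.v2 * (x.v1 * (x.c * g.a1 + x.d * g.a2) - x.v2 * (x.a * g.a1 + x.b * g.a2)) }

lemma actG_mul (x : Amb) (g h : Gr) : actG x (g * h) = actG x g * actG x h := by
  ext <;> simp [actG] <;> ring

lemma actG_one (g : Gr) : actG 1 g = g := by
  ext <;> simp [actG, B11, B12, B21, B22]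

lemma mul_actG {x y : Amb} (hx : x ∈ Sub adm1 True) (hy : y ∈ Sub adm1 True) (g : Gr) :
    actG (x * y) g = actG x (actG y g) := by
  obtain ⟨a1, a2, a3, a4⟩ := B_cast hx
  obtain ⟨b1, b2, b3, b4⟩ := B_cast hy
  obtain ⟨c1, c2, c3, c4⟩ := B_cast ((Sub adm1 True).mul_mem hx hy)
  have he := hx.2 trivial
  ext
  · simp [actG]; ring
  · simp [actG]; ring
  · simp [actG]; ring
  · apply Int.cast_injective (α := ℚ)
    simp [actG, a1, a2, b1, b2, b3, b4, c1, c2, he]
    ring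
  · apply Int.cast_injective (α := ℚ)
    simp [actG, a3, a4, b1, b2, b3, b4, c3, c4, he]
    ring

/-- the action as a homomorphism to the automorphism group -/
def theta : Sub adm1 True →* MulAut Gr where
  toFun x :=
    { toFun := actG x
      invFun := actG (x⁻¹ : Sub adm1 True)
      left_inv := fun g => by
        rw [← mul_actG (x⁻¹).2 x.2]; simp [actG_one]
      right_inv := fun g => by
        rw [← mul_actG x.2 (x⁻¹).2]; simp [actG_one]
      map_mul' := actG_mul x }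
  map_one' := by ext g : 1; exact actG_one g
  map_mul' x y := by ext g : 1; exact mul_actG x.2 y.2 g

lemma theta_apply (x : Sub adm1 True) (g : Gr) : theta x g = actG x g := rfl

lemma theta_bij : Function.Bijective theta := by
  constructor
  · rw [injective_iff_map_eq_one]
    intro x h
    have h1 : actG x gx = gx := by rw [← theta_apply, h]; rfl
    have h2 : actG x gy = gy := by rw [← theta_apply, h]; rfl
    obtain ⟨a1, a2, a3, a4⟩ := B_cast x.2
    have he := x.2.2 trivial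
    simp only [Gr.ext_iff, actG, gx, gy] at h1 h2
    obtain ⟨h11, h12, h13, h14, h15⟩ := h1
    obtain ⟨h21, h22, h23, h24, h25⟩ := h2
    have ha : (x : Amb).a = 1 := by linarith
    have hb : (x : Amb).b = 0 := by linarith
    have hc : (x : Amb).c = 0 := by linarith
    have hd : (x : Amb).d = 1 := by linarith
    simp only [ha, hb, hc, hd] at h13 h14 h15 h23 h24 h25
    have hv1 : (x : Amb).v1 = 0 := by linarith
    have hv2 : (x : Amb).v2 = 0 := by linarith
    simp only [hv1, hv2] at h14 h15 h24 h25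
    have e1 : B11 x = 0 := by linarith
    have e2 : B12 x = 0 := by linarith
    have e3 : B21 x = 0 := by linarith
    have e4 : B22 x = 0 := by linarith
    rw [e1] at a1
    rw [e2] at a2
    rw [e3] at a3
    rw [e4] at a4
    push_cast at a1 a2 a3 a4
    apply Subtype.ext
    ext <;> simp [ha, hb, hc, hd, he, hv1, hv2] <;> linarith
  · have key : ∀ φ : MulAut Gr, (φ gx).a1 = 1 → (φ gx).a2 = 0 → (φ gy).a1 = 0 → (φ gy).a2 = 1 →
        φ ∈ theta.range := by
      intro φ h1 h2 h3 h4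
      obtain ⟨x, hx⟩ : ∃ x, φ gx = x := ⟨_, rfl⟩
      obtain ⟨y, hy⟩ : ∃ y, φ gy = y := ⟨_, rfl⟩
      rw [hx] at h1 h2
      rw [hy] at h3 h4
      obtain ⟨b11, e11⟩ : ∃ b, b = y.p1 - y.s * y.s := ⟨_, rfl⟩
      obtain ⟨b12, e12⟩ : ∃ b, b = x.s * y.s - x.p1 := ⟨_, rfl⟩
      obtain ⟨b21, e21⟩ : ∃ b, b = y.p2 + x.s * y.s := ⟨_, rfl⟩
      obtain ⟨b22, e22⟩ : ∃ b, b = -(x.s * x.s) - x.p2 := ⟨_, rfl⟩
      let n : Sub adm1 True := ⟨mkU y.s (-x.s) ((b12 : ℚ) - b21, (b11 : ℚ), (b12 : ℚ) + b21, (b22 : ℚ)),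
        mkU_mem _ _ _ _ ⟨b11, b12, b21, b22, rfl⟩⟩
      obtain ⟨a1, a2, a3, a4⟩ := B_cast n.2
      have f1 : B11 n = b11 := by
        apply Int.cast_injective (α := ℚ); rw [a1]; simp [n]
      have f2 : B12 n = b12 := by
        apply Int.cast_injective (α := ℚ); rw [a2]; simp [n]
      have f3 : B21 n = b21 := by
        apply Int.cast_injective (α := ℚ); rw [a3]; simp [n]
      have f4 : B22 n = b22 := by
        apply Int.cast_injective (α := ℚ); rw [a4]; simp [n]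
      refine ⟨n, ?_⟩
      have : (theta n).toMonoidHom = φ.toMonoidHom := by
        apply hom_ext (fun a b h => Gr.pow_inj (by norm_num) h)
        · change actG n gx = φ gx
          rw [hx]
          ext <;> simp only [actG, f1, f2, f3, f4] <;> simp [n, gx, *]
          ring
        · change actG n gy = φ gy
          rw [hy]
          ext <;> simp only [actG, f1, f2, f3, f4] <;> simp [n, gy, *]
      ext g : 1
      exact DFunLike.congr_fun this g
    intro φ
    have hD := aut_det φ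
    let g : Sub adm1 True := ⟨mkL (φ gx).a1 (φ gy).a1 (φ gx).a2 (φ gy).a2 1 hD (by norm_num),
      mkL_mem _ _ _ _ _ _ _ _⟩
    have h1 : theta g⁻¹ * φ ∈ theta.range := by
      apply key
      · change (actG (g⁻¹ : Sub adm1 True) (φ gx)).a1 = 1
        simp [actG, g]
        linear_combination hD
      · change (actG (g⁻¹ : Sub adm1 True) (φ gx)).a2 = 0
        simp [actG, g]
        ring
      · change (actG (g⁻¹ : Sub adm1 True) (φ gy)).a1 = 0
        simp [actG, g]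
        ring
      · change (actG (g⁻¹ : Sub adm1 True) (φ gy)).a2 = 1
        simp [actG, g]
        linear_combination hD
    have h2 := theta.range.mul_mem ⟨g, rfl⟩ h1
    rw [← mul_assoc, ← map_mul, mul_inv_cancel, map_one, one_mul] at h2
    exact h2

lemma base_step : Nonempty (B 0 ≃* MulAut Gr) := ⟨MulEquiv.ofBijective theta theta_bij⟩

end Pool.Agent.Lib.MP_e1f2e6_al
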